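import Pool.Agent.Helper91.SD.Num

/-!
# Numerical part of the lower bound for sums of determinants as clique tests
-/

set_option autoImplicit false

namespace Pool.Agent.Helper72.CLQ

open Real Finset

/-- The upper bound for the determinantal side. -/
noncomputable def SS (m D : ℕ) (x : ℝ) : ℝ :=
  ∑ j ∈ Finset.range (D + 1), (Nat.choose (m - D - 1 + j) j : ℝ) * x ^ j

theorem SS_nonneg (m D : ℕ) {x : ℝ} (hx : 0 ≤ x) : 0 ≤ SS m D x :=
  Finset.sum_nonneg fun j _ => mul_nonneg (by positivity) (pow_nonneg hx _)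

theorem SS_le {m D : ℕ} (hD : 1 ≤ D) (hDm : D < m) {x y : ℝ} (hx : 0 ≤ x) (hxy : x ≤ y)
    (hy : (D : ℝ) ≤ m * y) : SS m D x ≤ (exp 1 * (m * y) / D) ^ D := by
  refine le_trans ?_ (Pool.SDN.sum_choose_le hD hDm (hx.trans hxy) hy)
  refine Finset.sum_le_sum fun j _ => ?_
  gcongr

theorem log_two_gt : (0.69 : ℝ) < log 2 := by
  have := Real.log_two_gt_d9
  linarith

/-- `(1 - 1/t)^t ≤ 1/2`. -/
theorem pow_le_half {t : ℕ} (ht : 1 ≤ t) : (1 - 1 / (t : ℝ)) ^ t ≤ 1 / 2 := by
  have h1 : (1 - 1 / (t : ℝ)) ^ t ≤ exp (-1) :=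
    Real.one_sub_div_pow_le_exp_neg (n := t) (t := 1) (by exact_mod_cast ht)
  have h2 : exp (-1) ≤ 1 / 2 := by
    rw [exp_neg, ← one_div]
    have h3 : (2 : ℝ) ≤ exp 1 := by
      have := Real.add_one_le_exp (1 : ℝ)
      linarith
    exact one_div_le_one_div_of_le (by norm_num) h3
  exact h1.trans h2

/-- Root of `1/t`. -/
theorem root_props {a : ℝ} (ha : 1 < a) {s : ℕ} (hs : 1 ≤ s) :
    0 < exp (-(log a / s)) ∧ exp (-(log a / s)) < 1 ∧ exp (-(log a / s)) ^ s = 1 / a ∧
      1 - exp (-(log a / s)) ≤ log a / s := by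
  have hs0 : (0 : ℝ) < s := by exact_mod_cast hs
  have hl : 0 < log a := log_pos ha
  refine ⟨exp_pos _, ?_, ?_, ?_⟩
  · rw [exp_lt_one_iff]
    have := div_pos hl hs0
    linarith
  · rw [← exp_nat_mul, mul_neg, mul_div_cancel₀ _ hs0.ne', exp_neg, exp_log (by linarith),
      one_div]
  · have := Real.add_one_le_exp (-(log a / s))
    linarith

/-- The bound from the gadget with shared variables. -/
theorem num_A {n k m r : ℕ} (hk : 3 ≤ k) (hkn : 2 * k ≤ n) (hm : k * (k - 1) ≤ 2 * m)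
    (hA : ∀ d κ t : ℕ, 2 * (d + 1) + κ = k → 2 * (d + 1) * t + κ ≤ n → 1 ≤ d + κ →
      ∀ q : ℝ, 0 < q → q < 1 →
      (1 - (1 - q ^ (d + κ)) ^ t) ^ (2 * (d + 1)) ≤
        r * q ^ (2 * (d + 1) * (d + κ)) * (SS m (d + 1) (1 - q)) ^ 2)
    (hr : 1 ≤ r) :
    ((n : ℝ) * k / (36 * exp 1 * m * log (n / k))) ^ (k - 1) ≤ r := by
  obtain ⟨d, κ, hκ, hdk⟩ : ∃ d κ : ℕ, κ ≤ 1 ∧ 2 * (d + 1) + κ = k := by
    refine ⟨k / 2 - 1, k % 2, by omega, by omega⟩
  have hs1 : 1 ≤ d + κ := by omega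
  set D := d + 1 with hD
  set s := d + κ with hs
  have hk0 : (0 : ℝ) < k := by exact_mod_cast (by omega : 0 < k)
  have hn0 : (0 : ℝ) < n := by exact_mod_cast (by omega : 0 < n)
  have hD0 : (0 : ℝ) < D := by exact_mod_cast (by omega : 0 < D)
  have hs0 : (0 : ℝ) < s := by exact_mod_cast hs1
  obtain ⟨t, ht⟩ : ∃ t, t = n / k := ⟨_, rfl⟩
  have ht2 : 2 ≤ t := by
    rw [ht, Nat.le_div_iff_mul_le (by omega)]
    exact hkn
  have ht1 : (1 : ℝ) < t := by exact_mod_cast (by omega : 1 < t)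
  have htk : t * k ≤ n := by rw [ht]; exact Nat.div_mul_le_self n k
  have hcond : 2 * D * t + κ ≤ n := by
    have h2 : κ ≤ t * κ := Nat.le_mul_of_pos_left κ (by omega)
    have h1 : 2 * D * t + κ ≤ t * k := by
      calc 2 * D * t + κ ≤ 2 * D * t + t * κ := by omega
        _ = t * (2 * D + κ) := by ring
        _ = t * k := by rw [hdk]
    exact h1.trans htk
  -- `m`
  have hmk : k * (k - 1) ≤ 2 * m := hm
  have hm1 : s * D * 2 ≤ k * (k - 1) := by
    have h3 : k = 2 * D + κ := by omega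
    have h4 : k - 1 = 2 * D + κ - 1 := by omega
    rw [h4, h3]
    rcases Nat.le_one_iff_eq_zero_or_eq_one.1 hκ with h0 | h0
    · subst h0
      have h5 : 2 * D + 0 - 1 = 2 * d + 1 := by omega
      rw [h5, hs, hD]
      nlinarith
    · subst h0
      have h5 : 2 * D + 1 - 1 = 2 * D := by omega
      rw [h5, hs, hD]
      nlinarith
  have hsD9 : (k : ℝ) ^ 2 / 9 ≤ s * D := by
    have h3 : k = 2 * D + κ := by omega
    have h6 : k * k ≤ 9 * (s * D) := by
      rw [h3]
      rcases Nat.le_one_iff_eq_zero_or_eq_one.1 hκ with h0 | h0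
      · subst h0
        have h7 : 1 ≤ d := by omega
        rw [hs, hD]
        nlinarith
      · subst h0
        rw [hs, hD]
        nlinarith
    have h8 : (k : ℝ) * k ≤ 9 * (s * D) := by exact_mod_cast h6
    rw [div_le_iff₀ (by norm_num)]
    nlinarith
  have hDm : D < m := by
    have h9 : 3 * (k - 1) ≤ k * (k - 1) := Nat.mul_le_mul_right _ hk
    omega
  have hm0 : (0 : ℝ) < m := by exact_mod_cast (by omega : 0 < m)
  have hlt : 0.69 < log (t : ℝ) := by
    refine log_two_gt.trans_le (log_le_log (by norm_num) ?_)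
    exact_mod_cast ht2
  have hlt0 : 0 < log (t : ℝ) := by linarith
  have hlnk : log (t : ℝ) ≤ log (n / k) := by
    refine log_le_log (by linarith) ?_
    rw [le_div_iff₀ hk0]
    exact_mod_cast htk
  -- the choice of `q`
  obtain ⟨hq0, hq1, hqs, hqx⟩ := root_props ht1 hs1
  set q := exp (-(log (t : ℝ) / s)) with hq
  have hmy : (D : ℝ) ≤ m * (log t / s) := by
    rw [← mul_div_assoc, le_div_iff₀ hs0]
    have h10 : (s : ℝ) * D * 2 ≤ k * (k - 1 : ℕ) := by exact_mod_cast hm1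
    have h11 : (k : ℝ) * (k - 1 : ℕ) ≤ 2 * m := by exact_mod_cast hmk
    -- need `D s ≤ 0.69 m`
    have h12 : (D : ℝ) * s ≤ 0.69 * m := by
      have h3 : k = 2 * D + κ := by omega
      have h13 : 100 * (D * s) ≤ 69 * m := by
        have h14 : k * (k - 1) ≤ 2 * m := hmk
        have h4 : k - 1 = 2 * D + κ - 1 := by omega
        rw [h4, h3] at h14
        rcases Nat.le_one_iff_eq_zero_or_eq_one.1 hκ with h0 | h0
        · subst h0
          have h5 : 2 * D + 0 - 1 = 2 * d + 1 := by omega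
          rw [h5, hD] at h14
          rw [hs, hD]
          nlinarith
        · subst h0
          have h5 : 2 * D + 1 - 1 = 2 * D := by omega
          rw [h5, hD] at h14
          rw [hs, hD]
          nlinarith
      have h15 : (100 : ℝ) * (D * s) ≤ 69 * m := by exact_mod_cast h13
      linarith
    nlinarith
  have hS := SS_le (x := 1 - q) (by omega : 1 ≤ D) hDm (by linarith) hqx hmy
  have hS0 := SS_nonneg m D (x := 1 - q) (by linarith)
  have hmain := hA d κ t (by omega) hcond hs1 q hq0 hq1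
  have hleft : (1 / 2 : ℝ) ^ (2 * D) ≤ (1 - (1 - q ^ s) ^ t) ^ (2 * D) := by
    refine pow_le_pow_left₀ (by norm_num) ?_ _
    rw [hqs]
    have := pow_le_half (t := t) (by omega)
    linarith
  have hr0 : (0 : ℝ) < r := by exact_mod_cast hr
  have hZ : ((t : ℝ) * (s * D) / (2 * exp 1 * m * log t)) ^ (2 * D) ≤ r := by
    have h16 : (1 / 2 : ℝ) ^ (2 * D) ≤
        r * (1 / t) ^ (2 * D) * (exp 1 * (m * (log t / s)) / D) ^ (2 * D) := by
      refine (hleft.trans hmain).trans ?_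
      have h17 : q ^ (2 * (d + 1) * (d + κ)) = (1 / (t : ℝ)) ^ (2 * D) := by
        rw [← hqs, ← pow_mul, mul_comm]
      rw [h17]
      have h18 : (SS m D (1 - q)) ^ 2 ≤ (exp 1 * (m * (log t / s)) / D) ^ (2 * D) := by
        rw [mul_comm 2 D, pow_mul]
        exact pow_le_pow_left₀ hS0 hS 2
      gcongr
    have h19 : ((t : ℝ) * (s * D) / (2 * exp 1 * m * log t)) ^ (2 * D) *
        (1 / t * (exp 1 * (m * (log t / s)) / D)) ^ (2 * D) = (1 / 2) ^ (2 * D) := by
      rw [← mul_pow]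
      congr 1
      have ht0 : (t : ℝ) ≠ 0 := by linarith
      field_simp
    have h20 : 0 < (1 / (t : ℝ) * (exp 1 * (m * (log t / s)) / D)) ^ (2 * D) := by
      positivity
    refine le_of_mul_le_mul_right (a := (1 / (t : ℝ) * (exp 1 * (m * (log t / s)) / D)) ^ (2 * D))
      ?_ h20
    rw [h19]
    refine h16.trans_eq ?_
    rw [mul_assoc, ← mul_pow]
  have hln0 : 0 < log ((n : ℝ) / k) := lt_of_lt_of_le hlt0 hlnk
  have hXZ : (n : ℝ) * k / (36 * exp 1 * m * log (n / k)) ≤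
      (t : ℝ) * (s * D) / (2 * exp 1 * m * log t) := by
    have h21 : (n : ℝ) / k ≤ 2 * t := by
      rw [div_le_iff₀ hk0]
      have h22 : n < (t + 1) * k := by
        rw [ht]
        exact Nat.lt_mul_of_div_lt (Nat.lt_succ_self _) (by omega)
      have h23 : n ≤ 2 * t * k := by nlinarith
      exact_mod_cast h23
    have h24 : (n : ℝ) * k / 36 ≤ t * (s * D) / 2 := by
      have h25 : (n : ℝ) * k = n / k * k ^ 2 := by field_simp
      rw [h25]
      have h26 : (n : ℝ) / k * k ^ 2 ≤ 2 * t * (9 * (s * D)) := by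
        refine mul_le_mul h21 ?_ (by positivity) (by positivity)
        rw [div_le_iff₀ (by norm_num)] at hsD9
        linarith
      linarith
    calc (n : ℝ) * k / (36 * exp 1 * m * log (n / k))
        = (n : ℝ) * k / 36 / (exp 1 * m * log (n / k)) := by
          field_simp
      _ ≤ t * (s * D) / 2 / (exp 1 * m * log t) := by gcongr
      _ = (t : ℝ) * (s * D) / (2 * exp 1 * m * log t) := by field_simp
  have hX0 : 0 ≤ (n : ℝ) * k / (36 * exp 1 * m * log (n / k)) := by positivity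
  rcases le_total 1 ((n : ℝ) * k / (36 * exp 1 * m * log (n / k))) with h1 | h1
  · calc ((n : ℝ) * k / (36 * exp 1 * m * log (n / k))) ^ (k - 1)
        ≤ ((n : ℝ) * k / (36 * exp 1 * m * log (n / k))) ^ (2 * D) :=
          pow_le_pow_right₀ h1 (by omega)
      _ ≤ ((t : ℝ) * (s * D) / (2 * exp 1 * m * log t)) ^ (2 * D) :=
          pow_le_pow_left₀ hX0 hXZ _
      _ ≤ r := hZ
  · exact (pow_le_one₀ hX0 h1).trans (by exact_mod_cast hr)

end Pool.Agent.Helper72.CLQ
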