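import Pool.Agent.Helper72.CLQ.GadA
import Pool.Agent.Helper72.CLQ.Num
import Pool.Agent.Helper76.CDET.Real

/-!
# The inequality from the gadget with shared variables
-/

set_option autoImplicit false

namespace Pool.Agent.Helper72.CLQ

open Finset MvPolynomial Pool.SDL Pool.Agent.Helper76.CDET
open scoped ENNReal

variable {d t κ n : ℕ}

theorem cnt_Tc_X (e : VA d t κ ↪ Fin n) (c : Bk d → Fin t) (x : XA d t κ) :
    cnt (kapA e) (Tc e c) (Sum.inl x) = MA c x := by
  refine Eq.trans ?_ (card_filter_X e c x)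
  unfold cnt
  congr

theorem cnt_Tc_Y (e : VA d t κ ↪ Fin n) (c : Bk d → Fin t) (y : YA d t) :
    cnt (kapA e) (Tc e c) (Sum.inr y) =
      open Classical in if y ∈ Set.range (ycA c) then 1 else 0 := by
  refine Eq.trans ?_ (card_filter_Y e c y)
  unfold cnt
  congr

/-- Elements of `S` with a variable lie in `T`, if `T` has the same numbers. -/
theorem mem_of_cnt_eq {V Q : Type} [DecidableEq V] (k : V → Option (Option Q)) {S T : Finset V}
    (hTS : T ⊆ S) {v : Q} (h : cnt k S v ≤ cnt k T v) {z : V} (hz : z ∈ S)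
    (hv : k z = some (some v)) : z ∈ T := by
  classical
  have h1 : T.filter (fun e => k e = some (some v)) = S.filter fun e => k e = some (some v) :=
    Finset.eq_of_subset_of_card_le (Finset.filter_subset_filter _ hTS) h
  have h2 : z ∈ S.filter fun e => k e = some (some v) := Finset.mem_filter.2 ⟨hz, hv⟩
  rw [← h1] at h2
  exact (Finset.mem_filter.1 h2).1

variable {F : Type} [Field F] {Ya : Type}

theorem gadA_enn {k : ℕ} (f : MvPolynomial (Sym2 (Fin n) ⊕ Ya) F)
    (hml : ∀ μ ∈ f.support, ∀ e, μ (Sum.inl e) ≤ 1)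
    (hP : ∀ S : Finset (Sym2 (Fin n)), restr S f ≠ 0 ↔ PA k (S : Set (Sym2 (Fin n))))
    (hk : 2 * (d + 1) + κ = k) (hn : 2 * (d + 1) * t + κ ≤ n)
    {r m : ℕ} (s : Fin r → ℕ) (hs : ∀ i, s i ≤ m)
    (A : ∀ i, Matrix (Fin (s i)) (Fin (s i)) (MvPolynomial (Sym2 (Fin n) ⊕ Ya) F))
    (hA : ∀ i p q, ∀ μ ∈ (A i p q).support, ∑ e, μ (Sum.inl e) ≤ 1)
    (hf : f = ∑ i, (A i).det) (Q : ℝ≥0∞) (hQ : Q < 1) :
    (1 - (1 - Q ^ (d + κ)) ^ t) ^ (2 * (d + 1)) ≤
      Q ^ (2 * (d + 1) * (d + κ)) *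
        (r * (∑ g : Fin (m - (d + 1)) ↪o Fin m, (1 - Q) ^ rho g) ^ 2) := by
  classical
  obtain ⟨e⟩ : Nonempty (VA d t κ ↪ Fin n) := by
    apply Function.Embedding.nonempty_of_card_le
    simp only [Fintype.card_sum, Fintype.card_prod, Fintype.card_fin, Fintype.card_bool]
    calc (d + 1) * 2 * t + κ = 2 * (d + 1) * t + κ := by ring
      _ ≤ n := hn
  subst hk
  have hsub : ∀ (c : Bk d → Fin t) (S : Finset (Sym2 (Fin n))),
      PA (2 * (d + 1) + κ) (S : Set (Sym2 (Fin n))) → (∀ z ∈ S, kapA e z ≠ none) →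
      (∀ z ∈ S, ∀ y, kapA e z = some (some (Sum.inr y)) → y ∈ Set.range (ycA c)) →
      Tc e c ⊆ S := by
    intro c S hS hd hy
    exact Finset.coe_subset.1 (Tc_subset e c S hS (fun z hz => hd z hz) fun z hz => hy z hz)
  have hsub' : ∀ (c : Bk d → Fin t) (S : Finset (Sym2 (Fin n))),
      PA (2 * (d + 1) + κ) (S : Set (Sym2 (Fin n))) → (∀ z ∈ S, kapA e z ≠ none) →
      Hits (kapA e) (fun x => MA c x) (ycA c) S → Tc e c ⊆ S := by
    intro c S hS hd hh
    refine hsub c S hS hd fun z hz y hy => ?_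
    by_contra h
    exact cnt_eq_zero (kapA e) (hh.2.2 y h) z hz hy
  have hhits : ∀ c : Bk d → Fin t, Hits (kapA e) (fun x => MA c x) (ycA c) (Tc e c) := by
    intro c
    refine ⟨fun x => cnt_Tc_X e c x, fun b => ?_, fun z hz => ?_⟩
    · rw [cnt_Tc_Y, if_pos ⟨b, rfl⟩]
    · rw [cnt_Tc_Y, if_neg hz]
  have hmain := machine f hml (fun S => PA (2 * (d + 1) + κ) (S : Set (Sym2 (Fin n)))) hP
    (kapA e) (D := d + 1) ycA ycA_injective (fun (c : Bk d → Fin t) x => MA c x)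
    (2 * (d + 1) * (d + κ))
    (by
      intro c
      rw [← degree_MA c, Finsupp.degree_eq_sum])
    (by
      intro c S hS hd hy
      have hT := hsub c S hS hd hy
      constructor
      · intro x
        rw [← cnt_Tc_X e c x]
        exact cnt_mono _ hT _
      · intro b
        have h1 : cnt (kapA e) (Tc e c) (Sum.inr (ycA c b)) = 1 := by
          rw [cnt_Tc_Y, if_pos ⟨b, rfl⟩]
        rw [← h1]
        exact cnt_mono _ hT _)
    (by
      intro c
      exact ⟨Tc e c, PA_Tc e c, Tc_ne_none e c, hhits c⟩)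
    (by
      have key : ∀ (c : Bk d → Fin t) (S S' : Finset (Sym2 (Fin n))),
          PA (2 * (d + 1) + κ) (S : Set (Sym2 (Fin n))) →
          PA (2 * (d + 1) + κ) (S' : Set (Sym2 (Fin n))) →
          (∀ z ∈ S, kapA e z ≠ none) → (∀ z ∈ S', kapA e z ≠ none) →
          Hits (kapA e) (fun x => MA c x) (ycA c) S →
          Hits (kapA e) (fun x => MA c x) (ycA c) S' →
          (∀ z, kapA e z = some none → (z ∈ S ↔ z ∈ S')) → S ⊆ S' := by
        intro c S S' hS hS' hd hd' hh hh' hfree z hz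
        have hT := hsub' c S hS hd hh
        have hT' := hsub' c S' hS' hd' hh'
        rcases hv : kapA e z with _ | _ | v
        · exact absurd hv (hd z hz)
        · exact (hfree z hv).1 hz
        · refine hT' (mem_of_cnt_eq (kapA e) hT (v := v) ?_ hz hv)
          have h1 := tgt_of_hits (kapA e) _ _ (ycA_injective c) S hh v
          have h2 := tgt_of_hits (kapA e) _ _ (ycA_injective c) (Tc e c) (hhits c) v
          rw [h1, h2]
      intro c S S' hS hS' hd hd' hh hh' hfree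
      exact Finset.Subset.antisymm (key c S S' hS hS' hd hd' hh hh' hfree)
        (key c S' S hS' hS hd' hd hh' hh fun z hz => (hfree z hz).symm))
    s hs A hA hf Q hQ
  refine le_trans (le_of_eq ?_) hmain
  have h5 := series_all (P := Bk d) (α := Fin t) (S := Fin d ⊕ Fin κ) Q hQ
  have h6 : Fintype.card (Bk d) = 2 * (d + 1) := by
    simp only [Fintype.card_prod, Fintype.card_fin, Fintype.card_bool]
    ring
  have h7 : Fintype.card (Fin d ⊕ Fin κ) = d + κ := by
    simp only [Fintype.card_sum, Fintype.card_fin]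
  rw [h6, h7, Fintype.card_fin] at h5
  rw [← h5]
  congr 1
  refine tsum_congr fun u => ?_
  have h8 := exists_MA_le (d := d) (t := t) (κ := κ) u
  by_cases h9 : ∀ i : Bk d, ∃ p, ∀ s, 1 ≤ u (i, (p, s))
  · rw [if_pos h9, if_pos (h8.2 h9)]
  · rw [if_neg h9, if_neg fun h10 => h9 (h8.1 h10)]

/-- The inequality with real numbers. -/
theorem gadA_real {k : ℕ} (f : MvPolynomial (Sym2 (Fin n) ⊕ Ya) F)
    (hml : ∀ μ ∈ f.support, ∀ e, μ (Sum.inl e) ≤ 1)
    (hP : ∀ S : Finset (Sym2 (Fin n)), restr S f ≠ 0 ↔ PA k (S : Set (Sym2 (Fin n))))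
    (hk : 2 * (d + 1) + κ = k) (hn : 2 * (d + 1) * t + κ ≤ n)
    {r m : ℕ} (s : Fin r → ℕ) (hs : ∀ i, s i ≤ m)
    (A : ∀ i, Matrix (Fin (s i)) (Fin (s i)) (MvPolynomial (Sym2 (Fin n) ⊕ Ya) F))
    (hA : ∀ i p q, ∀ μ ∈ (A i p q).support, ∑ e, μ (Sum.inl e) ≤ 1)
    (hf : f = ∑ i, (A i).det) (hDm : d + 1 < m) (q : ℝ) (hq0 : 0 < q) (hq1 : q < 1) :
    (1 - (1 - q ^ (d + κ)) ^ t) ^ (2 * (d + 1)) ≤
      r * q ^ (2 * (d + 1) * (d + κ)) * (SS m (d + 1) (1 - q)) ^ 2 := by
  have h := ennreal_to_real t (d + κ) (2 * (d + 1)) (2 * (d + 1) * (d + κ)) r m (d + 1) q hq0 hq1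
    (by
      refine (gadA_enn f hml hP hk hn s hs A hA hf _ (ofReal_lt_one hq1)).trans ?_
      gcongr
      exact sum_rho_le hDm _)
  rw [SS, mul_comm (r : ℝ), mul_assoc]
  exact h

end Pool.Agent.Helper72.CLQ
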