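import Pool.Agent.Helper72.CLQ.GadAReal

/-!
# Degree of a clique test
-/

set_option autoImplicit false

namespace Pool.Agent.Helper72.CLQ

open Finset MvPolynomial Pool.Agent.Helper76.CDET Pool.Agent.Helper41.SD

variable {n : ℕ} {F : Type} [Field F] {Ya : Type}

theorem Wle_sum {τ : Type} {w : τ → ℕ} {a : ℕ} {ι : Type} (s : Finset ι)
    (f : ι → MvPolynomial τ F) (h : ∀ i ∈ s, Wle w a (f i)) : Wle w a (∑ i ∈ s, f i) := by
  classical
  induction s using Finset.induction_on with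
  | empty =>
    intro u hu
    simp at hu
  | insert i s hi ih =>
    rw [Finset.sum_insert hi]
    exact (h i (Finset.mem_insert_self i s)).add
      (ih fun j hj => h j (Finset.mem_insert_of_mem hj))

theorem Wle_det {τ : Type} {w : τ → ℕ} {s : ℕ} (A : Matrix (Fin s) (Fin s) (MvPolynomial τ F))
    (h : ∀ p q, Wle w 1 (A p q)) : Wle w s A.det := by
  classical
  rw [Matrix.det_apply]
  refine Wle_sum _ _ fun σ _ => ?_
  have h1 : Wle w s (∏ i, A (σ i) i) := by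
    have h2 := Wle.prod (w := w) Finset.univ (fun i => A (σ i) i) (fun _ => 1)
      fun i _ => h (σ i) i
    simpa using h2
  rcases Int.units_eq_one_or (Equiv.Perm.sign σ) with h3 | h3
  · rw [h3, one_smul]
    exact h1
  · rw [h3]
    have h4 : ((-1 : ℤˣ) • ∏ i, A (σ i) i) = -∏ i, A (σ i) i := by
      rw [Units.smul_def]
      simp
    rw [h4]
    exact h1.neg

/-- weight of the edge variables -/
def we : Sym2 (Fin n) ⊕ Ya → ℕ := Sum.elim (fun _ => 1) fun _ => 0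

theorem weight_we (μ : (Sym2 (Fin n) ⊕ Ya) →₀ ℕ) :
    Finsupp.weight we μ = ∑ e, μ (Sum.inl e) := by
  classical
  rw [Finsupp.weight_apply, Finsupp.sum]
  have h1 : ∑ x ∈ μ.support, μ x • (we x : ℕ) =
      ∑ x ∈ Finset.univ.map (Function.Embedding.inl : Sym2 (Fin n) ↪ Sym2 (Fin n) ⊕ Ya), μ x := by
    apply Finset.sum_congr_of_eq_on_inter
    · intro x _ hx
      rcases x with e | y
      · exact absurd (Finset.mem_map_of_mem _ (Finset.mem_univ e)) hx
      · simp [we]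
    · intro x _ hx
      exact Finsupp.notMem_support_iff.1 hx
    · intro x _ hx
      obtain ⟨e, -, rfl⟩ := Finset.mem_map.1 hx
      simp [we]
  rw [h1, Finset.sum_map]
  rfl

/-- the edges of the complete graph on `Q` -/
def KQ (Q : Finset (Fin n)) : Finset (Sym2 (Fin n)) := Q.offDiag.image Sym2.mk.uncurry

theorem mem_KQ {Q : Finset (Fin n)} {u v : Fin n} :
    s(u, v) ∈ KQ Q ↔ u ∈ Q ∧ v ∈ Q ∧ u ≠ v := by
  rw [KQ, Finset.mem_image]
  constructor
  · rintro ⟨⟨a, b⟩, h, h2⟩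
    rw [Finset.mem_offDiag] at h
    have h3 : s(a, b) = s(u, v) := h2
    rcases Sym2.eq_iff.1 h3 with ⟨rfl, rfl⟩ | ⟨rfl, rfl⟩
    · exact h
    · exact ⟨h.2.1, h.1, h.2.2.symm⟩
  · rintro h
    exact ⟨(u, v), Finset.mem_offDiag.2 h, rfl⟩

theorem card_KQ (Q : Finset (Fin n)) : (KQ Q).card = Q.card.choose 2 :=
  Sym2.card_image_offDiag Q

theorem PA_KQ {k : ℕ} {Q : Finset (Fin n)} (hQ : Q.card = k) :
    PA k (KQ Q : Set (Sym2 (Fin n))) := by
  unfold PA SimpleGraph.CliqueFree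
  push Not
  refine ⟨Q, ?_⟩
  rw [SimpleGraph.isNClique_iff]
  refine ⟨?_, hQ⟩
  intro u hu v hv huv
  rw [SimpleGraph.fromEdgeSet_adj]
  exact ⟨Finset.mem_coe.2 (mem_KQ.2 ⟨hu, hv, huv⟩), huv⟩

theorem KQ_subset {k : ℕ} {S : Finset (Sym2 (Fin n))} (h : PA k (S : Set (Sym2 (Fin n)))) :
    ∃ Q : Finset (Fin n), Q.card = k ∧ KQ Q ⊆ S := by
  unfold PA SimpleGraph.CliqueFree at h
  push Not at h
  obtain ⟨Q, hQ⟩ := h
  refine ⟨Q, hQ.card_eq, ?_⟩
  intro z
  induction z using Sym2.ind with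
  | _ u v =>
    intro hz
    obtain ⟨hu, hv, huv⟩ := mem_KQ.1 hz
    have h1 := hQ.isClique hu hv huv
    rw [SimpleGraph.fromEdgeSet_adj] at h1
    exact h1.1

/-- The size of the matrices is at least the number of edges of a clique. -/
theorem test_degree {k : ℕ} (hkn : k ≤ n) (f : MvPolynomial (Sym2 (Fin n) ⊕ Ya) F)
    (hP : ∀ S : Finset (Sym2 (Fin n)), restr S f ≠ 0 ↔ PA k (S : Set (Sym2 (Fin n))))
    {r m : ℕ} (s : Fin r → ℕ) (hs : ∀ i, s i ≤ m)
    (A : ∀ i, Matrix (Fin (s i)) (Fin (s i)) (MvPolynomial (Sym2 (Fin n) ⊕ Ya) F))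
    (hA : ∀ i p q, ∀ μ ∈ (A i p q).support, ∑ e, μ (Sum.inl e) ≤ 1)
    (hf : f = ∑ i, (A i).det) : k * (k - 1) ≤ 2 * m := by
  classical
  obtain ⟨Q, -, hQ⟩ := Finset.exists_subset_card_eq (s := (Finset.univ : Finset (Fin n)))
    (n := k) (by rw [Finset.card_univ, Fintype.card_fin]; exact hkn)
  obtain ⟨μ, hμ, hμS⟩ := exists_sup f (fun S => PA k (S : Set (Sym2 (Fin n)))) hP (KQ Q)
    (PA_KQ hQ)
  have h1 := prop_sup f (fun S => PA k (S : Set (Sym2 (Fin n)))) hP μ hμ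
  obtain ⟨Q', hQ', hsub⟩ := KQ_subset h1
  have h2 : k.choose 2 ≤ (Pool.Agent.Helper76.CDET.sup μ).card := by
    rw [← hQ', ← card_KQ]
    exact Finset.card_le_card hsub
  have h3 : (Pool.Agent.Helper76.CDET.sup μ).card ≤ ∑ e, μ (Sum.inl e) := by
    rw [Pool.Agent.Helper76.CDET.sup, Finset.card_filter]
    refine Finset.sum_le_sum fun e _ => ?_
    split_ifs with h4
    · exact Nat.pos_of_ne_zero h4
    · exact Nat.zero_le _
  have h4 : Wle we m f := by
    rw [hf]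
    refine Wle_sum _ _ fun i _ => (Wle_det (A i) fun p q => ?_).mono (hs i)
    intro u hu
    rw [weight_we]
    exact hA i p q u hu
  have h5 := h4 μ hμ
  rw [weight_we] at h5
  have h6 : k.choose 2 ≤ m := h2.trans (h3.trans h5)
  rw [Nat.choose_two_right] at h6
  have h7 : 2 ∣ k * (k - 1) := (Nat.even_mul_pred_self k).two_dvd
  omega

/-- There is at least one determinant. -/
theorem test_pos {k : ℕ} (hkn : k ≤ n) (f : MvPolynomial (Sym2 (Fin n) ⊕ Ya) F)
    (hP : ∀ S : Finset (Sym2 (Fin n)), restr S f ≠ 0 ↔ PA k (S : Set (Sym2 (Fin n))))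
    {r : ℕ} (s : Fin r → ℕ)
    (A : ∀ i, Matrix (Fin (s i)) (Fin (s i)) (MvPolynomial (Sym2 (Fin n) ⊕ Ya) F))
    (hf : f = ∑ i, (A i).det) : 1 ≤ r := by
  classical
  by_contra hr
  have hr0 : r = 0 := by omega
  subst hr0
  obtain ⟨Q, -, hQ⟩ := Finset.exists_subset_card_eq (s := (Finset.univ : Finset (Fin n)))
    (n := k) (by rw [Finset.card_univ, Fintype.card_fin]; exact hkn)
  refine (hP (KQ Q)).2 (PA_KQ hQ) ?_
  rw [hf, Finset.univ_eq_empty, Finset.sum_empty, restr, map_zero]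

end Pool.Agent.Helper72.CLQ
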