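import Mathlib

/-!
# The clique gadget with shared variables

`2 (d + 1)` groups of `t` vertices (no edge inside a group) and `κ` common vertices. The edges
between two partner groups carry the variables `YA`, the other edges between groups carry variables
owned by one of their two vertices: the variable depends on the owner and on the pair of groups of
the other vertex only. So each group owns `t` disjoint sets of `d + κ` variables.
-/

set_option autoImplicit false

namespace Pool.Agent.Helper72.CLQ

open Finset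

/-- the groups -/
abbrev Bk (d : ℕ) := Fin (d + 1) × Bool

/-- the vertices of the gadget -/
abbrev VA (d t κ : ℕ) := (Bk d × Fin t) ⊕ Fin κ

/-- the variables on the edges -/
abbrev XA (d t κ : ℕ) := Bk d × (Fin t × (Fin d ⊕ Fin κ))

/-- the variables between partner groups -/
abbrev YA (d t : ℕ) := Fin (d + 1) × (Fin t × Fin t)

variable {d t κ n : ℕ}

/-- The group `i` owns the edges between the groups `i` and `j`. -/
def own (i j : Bk d) : Prop := (i.1 < j.1 ↔ i.2 = j.2)

instance (i j : Bk d) : Decidable (own i j) := inferInstanceAs (Decidable (_ ↔ _))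

theorem own_swap {i j : Bk d} (h : i.1 ≠ j.1) : own j i ↔ ¬ own i j := by
  unfold own
  have h1 : j.1 < i.1 ↔ ¬ i.1 < j.1 := by
    rw [not_lt]
    exact ⟨le_of_lt, fun h2 => lt_of_le_of_ne h2 (Ne.symm h)⟩
  rw [h1, eq_comm (a := j.2)]
  tauto

/-- The index of the pair `b` among the pairs different from `a`. -/
def idx {a b : Fin (d + 1)} (h : b ≠ a) : Fin d := (finSuccAboveEquiv a).symm ⟨b, h⟩

theorem succAbove_idx {a b : Fin (d + 1)} (h : b ≠ a) : a.succAbove (idx h) = b := by
  have h1 := (finSuccAboveEquiv a).apply_symm_apply ⟨b, h⟩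
  exact congrArg Subtype.val h1

theorem idx_succAbove (a : Fin (d + 1)) (l : Fin d) : idx (Fin.succAbove_ne a l) = l :=
  Fin.succAbove_right_injective (succAbove_idx (Fin.succAbove_ne a l))

/-- The label of a pair of vertices. -/
def cell : VA d t κ → VA d t κ → Option (Option (XA d t κ ⊕ YA d t))
  | Sum.inl (i, p), Sum.inl (j, q) =>
    if h : i.1 = j.1 then
      if i.2 = j.2 then none
      else some (some (Sum.inr (i.1, (if i.2 then q else p, if i.2 then p else q))))
    else if own i j then some (some (Sum.inl (i, (p, Sum.inl (idx (Ne.symm h))))))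
      else some (some (Sum.inl (j, (q, Sum.inl (idx h)))))
  | Sum.inl (i, p), Sum.inr w => some (some (Sum.inl (i, (p, Sum.inr w))))
  | Sum.inr w, Sum.inl (i, p) => some (some (Sum.inl (i, (p, Sum.inr w))))
  | Sum.inr w, Sum.inr w' => if w = w' then none else some none

theorem cell_comm (a b : VA d t κ) : cell a b = cell b a := by
  rcases a with ⟨i, p⟩ | w <;> rcases b with ⟨j, q⟩ | w'
  · by_cases h : i.1 = j.1
    · rcases i with ⟨i, bi⟩
      rcases j with ⟨j, bj⟩
      simp only at h
      subst h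
      cases bi <;> cases bj <;> simp [cell]
    · have h' : j.1 ≠ i.1 := Ne.symm h
      have h1 := own_swap h
      by_cases h2 : own i j
      · have h3 : ¬ own j i := by rw [h1]; exact not_not.2 h2
        simp only [cell, dif_neg h, dif_neg h', if_pos h2, if_neg h3]
      · have h3 : own j i := by rw [h1]; exact h2
        simp only [cell, dif_neg h, dif_neg h', if_neg h2, if_pos h3]
  · rfl
  · rfl
  · by_cases h : w = w'
    · subst h; rfl
    · simp [cell, h, Ne.symm h]

/-- The label of an edge. -/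
noncomputable def kapA (e : VA d t κ ↪ Fin n) (z : Sym2 (Fin n)) :
    Option (Option (XA d t κ ⊕ YA d t)) :=
  Sym2.lift ⟨fun u v => (Function.partialInv e u).bind fun a =>
    (Function.partialInv e v).bind fun b => cell a b, fun u v => by
      dsimp only
      generalize Function.partialInv e u = a'
      generalize Function.partialInv e v = b'
      rcases a' with _ | a <;> rcases b' with _ | b <;> simp [cell_comm]⟩ z

theorem kapA_mk (e : VA d t κ ↪ Fin n) (a b : VA d t κ) : kapA e s(e a, e b) = cell a b := by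
  simp only [kapA, Sym2.lift_mk]
  rw [Function.partialInv_left e.injective, Function.partialInv_left e.injective]
  rfl

theorem kapA_ne_none (e : VA d t κ ↪ Fin n) (u v : Fin n) (h : kapA e s(u, v) ≠ none) :
    ∃ a b, e a = u ∧ e b = v ∧ cell a b ≠ none := by
  simp only [kapA, Sym2.lift_mk] at h
  rcases hu : Function.partialInv e u with _ | a
  · rw [hu] at h; exact absurd rfl h
  rcases hv : Function.partialInv e v with _ | b
  · rw [hu, hv] at h; exact absurd rfl h
  rw [hu, hv] at h
  exact ⟨a, b, (e.injective.isPartialInv a u).1 hu,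
    (e.injective.isPartialInv b v).1 hv, h⟩

/-- The choice `c` contains the vertex. -/
def inTr (c : Bk d → Fin t) : VA d t κ → Prop
  | Sum.inl (i, p) => p = c i
  | Sum.inr _ => True

instance (c : Bk d → Fin t) : DecidablePred (inTr (κ := κ) c)
  | Sum.inl (i, p) => inferInstanceAs (Decidable (p = c i))
  | Sum.inr _ => isTrue trivial

/-- The vertices of the choice. -/
def tr (c : Bk d → Fin t) : Finset (VA d t κ) := univ.filter (inTr c)

theorem card_tr (c : Bk d → Fin t) : (tr (κ := κ) c).card = 2 * (d + 1) + κ := by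
  have h : tr (κ := κ) c = (univ.map ⟨fun i => (i, c i), fun i j h => (Prod.ext_iff.1 h).1⟩).disjSum
      univ := by
    ext a
    rcases a with ⟨i, p⟩ | w
    · simp [tr, inTr, eq_comm]
    · simp [tr, inTr]
  rw [h, card_disjSum, card_map, card_univ, card_univ, Fintype.card_prod, Fintype.card_fin,
    Fintype.card_bool, Fintype.card_fin]
  ring

/-- The edges of the choice. -/
def Tc (e : VA d t κ ↪ Fin n) (c : Bk d → Fin t) : Finset (Sym2 (Fin n)) :=
  ((tr c).map e).sym2.filter fun z => ¬ z.IsDiag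

theorem mem_Tc (e : VA d t κ ↪ Fin n) (c : Bk d → Fin t) (z : Sym2 (Fin n)) :
    z ∈ Tc e c ↔ ∃ a b, inTr c a ∧ inTr c b ∧ a ≠ b ∧ z = s(e a, e b) := by
  induction z using Sym2.ind with
  | _ u v =>
    rw [Tc, mem_filter, mk_mem_sym2_iff, mem_map, mem_map]
    constructor
    · rintro ⟨⟨⟨a, ha, rfl⟩, ⟨b, hb, rfl⟩⟩, h⟩
      refine ⟨a, b, (mem_filter.1 ha).2, (mem_filter.1 hb).2, ?_, rfl⟩
      rintro rfl
      exact h rfl
    · rintro ⟨a, b, ha, hb, hab, h⟩
      have hne : e a ≠ e b := fun h' => hab (e.injective h')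
      rcases Sym2.eq_iff.1 h with ⟨rfl, rfl⟩ | ⟨rfl, rfl⟩
      · exact ⟨⟨⟨a, by simp [tr, ha], rfl⟩, ⟨b, by simp [tr, hb], rfl⟩⟩, hne⟩
      · exact ⟨⟨⟨b, by simp [tr, hb], rfl⟩, ⟨a, by simp [tr, ha], rfl⟩⟩, hne.symm⟩

/-- The variables of the choice. -/
def ycA (c : Bk d → Fin t) (b : Fin (d + 1)) : YA d t := (b, (c (b, false), c (b, true)))

theorem ycA_injective (c : Bk d → Fin t) : Function.Injective (ycA c) :=
  fun _ _ h => (Prod.ext_iff.1 h).1

/-- Two vertices of a choice are adjacent. -/
theorem cell_ne_none (c : Bk d → Fin t) {a b : VA d t κ} (ha : inTr c a) (hb : inTr c b)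
    (hab : a ≠ b) : cell a b ≠ none := by
  rcases a with ⟨i, p⟩ | w <;> rcases b with ⟨j, q⟩ | w'
  · simp only [inTr] at ha hb
    subst ha hb
    have hij : i ≠ j := by
      rintro rfl
      exact hab rfl
    by_cases h : i.1 = j.1
    · have h2 : i.2 ≠ j.2 := fun h2 => hij (Prod.ext h h2)
      simp [cell, h, h2]
    · by_cases h2 : own i j
      · simp [cell, h, h2]
      · simp [cell, h, h2]
  · simp [cell]
  · simp [cell]
  · have h : w ≠ w' := by
      rintro rfl
      exact hab rfl
    simp [cell, h]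

/-- Cliques of the gadget. -/
theorem clique_structure {Q : Finset (VA d t κ)} (hQ : Q.card = 2 * (d + 1) + κ)
    (hcl : ∀ a ∈ Q, ∀ b ∈ Q, a ≠ b → cell a b ≠ none) : ∃ c : Bk d → Fin t, Q = tr c := by
  classical
  -- the map to the groups and the common vertices is injective on `Q`
  let g : VA d t κ → Bk d ⊕ Fin κ := Sum.map Prod.fst id
  have hinj : Set.InjOn g Q := by
    intro a ha b hb hab
    by_contra hne
    have h1 := hcl a ha b hb hne
    rcases a with ⟨i, p⟩ | w <;> rcases b with ⟨j, q⟩ | w'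
    · have h2 : i = j := by simpa [g] using hab
      subst h2
      exact h1 (by simp [cell])
    · simp [g] at hab
    · simp [g] at hab
    · have h2 : w = w' := by simpa [g] using hab
      exact hne (by rw [h2])
  have hsurj : Q.image g = univ := by
    apply eq_univ_of_card
    rw [card_image_of_injOn hinj, hQ]
    simp only [Fintype.card_sum, Fintype.card_prod, Fintype.card_fin, Fintype.card_bool]
    ring
  have h2 : ∀ i : Bk d, ∃ p : Fin t, Sum.inl (i, p) ∈ Q := by
    intro i
    have h3 : (Sum.inl i : Bk d ⊕ Fin κ) ∈ Q.image g := by rw [hsurj]; exact mem_univ _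
    obtain ⟨a, ha, h4⟩ := mem_image.1 h3
    rcases a with ⟨j, p⟩ | w
    · have h5 : j = i := by simpa [g] using h4
      subst h5
      exact ⟨p, ha⟩
    · simp [g] at h4
  choose c hc using h2
  refine ⟨c, (eq_of_subset_of_card_le ?_ ?_).symm⟩
  · intro a ha
    rcases a with ⟨i, p⟩ | w
    · have h3 : p = c i := (mem_filter.1 ha).2
      rw [h3]
      exact hc i
    · have h3 : (Sum.inr w : Bk d ⊕ Fin κ) ∈ Q.image g := by rw [hsurj]; exact mem_univ _
      obtain ⟨a, ha, h4⟩ := mem_image.1 h3
      rcases a with ⟨j, p⟩ | w'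
      · simp [g] at h4
      · have h5 : w' = w := by simpa [g] using h4
        rw [← h5]
        exact ha
  · rw [hQ, card_tr]

/-- The clique property. -/
def PA (k : ℕ) (S : Set (Sym2 (Fin n))) : Prop := ¬ (SimpleGraph.fromEdgeSet S).CliqueFree k

/-- The gadget property. -/
theorem Tc_subset (e : VA d t κ ↪ Fin n) (c : Bk d → Fin t) (S : Set (Sym2 (Fin n)))
    (hP : PA (2 * (d + 1) + κ) S) (hdead : ∀ z ∈ S, kapA e z ≠ none)
    (hY : ∀ z ∈ S, ∀ y, kapA e z = some (some (Sum.inr y)) → y ∈ Set.range (ycA c)) :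
    (Tc e c : Set (Sym2 (Fin n))) ⊆ S := by
  classical
  unfold PA SimpleGraph.CliqueFree at hP
  push Not at hP
  obtain ⟨Q, hQ⟩ := hP
  have hadj : ∀ u ∈ Q, ∀ v ∈ Q, u ≠ v → s(u, v) ∈ S := by
    intro u hu v hv huv
    have h1 := hQ.isClique hu hv huv
    rw [SimpleGraph.fromEdgeSet_adj] at h1
    exact h1.1
  have hcard := hQ.card_eq
  -- all vertices are in the range of `e`
  have hrange : ∀ u ∈ Q, ∃ a, e a = u := by
    intro u hu
    have h1 : 1 < Q.card := by rw [hcard]; omega
    obtain ⟨v, hv, hne⟩ := exists_mem_ne h1 u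
    obtain ⟨a, b, ha, -, -⟩ := kapA_ne_none e u v (hdead _ (hadj u hu v hv hne.symm))
    exact ⟨a, ha⟩
  let Q' : Finset (VA d t κ) := univ.filter fun a => e a ∈ Q
  have hQ' : Q'.map e = Q := by
    ext u
    rw [mem_map]
    constructor
    · rintro ⟨a, ha, rfl⟩
      exact (mem_filter.1 ha).2
    · intro hu
      obtain ⟨a, rfl⟩ := hrange u hu
      exact ⟨a, mem_filter.2 ⟨mem_univ _, hu⟩, rfl⟩
  have hcard' : Q'.card = 2 * (d + 1) + κ := by rw [← hcard, ← hQ', card_map]
  have hcl : ∀ a ∈ Q', ∀ b ∈ Q', a ≠ b → cell a b ≠ none := by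
    intro a ha b hb hab
    have h1 := hdead _ (hadj _ (mem_filter.1 ha).2 _ (mem_filter.1 hb).2
      fun h => hab (e.injective h))
    rwa [kapA_mk] at h1
  obtain ⟨c', hc'⟩ := clique_structure hcard' hcl
  have hcc : c' = c := by
    have hmem : ∀ i : Bk d, e (Sum.inl (i, c' i)) ∈ Q := by
      intro i
      have h1 : (Sum.inl (i, c' i) : VA d t κ) ∈ Q' := by
        rw [hc']
        exact mem_filter.2 ⟨mem_univ _, rfl⟩
      exact (mem_filter.1 h1).2
    have hb : ∀ b : Fin (d + 1), c' (b, false) = c (b, false) ∧ c' (b, true) = c (b, true) := by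
      intro b
      have h1 := hadj _ (hmem (b, false)) _ (hmem (b, true))
        (fun h => by simpa using e.injective h)
      have h2 := hY _ h1 (b, (c' (b, false), c' (b, true))) (by rw [kapA_mk]; simp [cell])
      obtain ⟨b', hb'⟩ := h2
      simp only [ycA, Prod.mk.injEq] at hb'
      obtain ⟨rfl, h3, h4⟩ := hb'
      exact ⟨h3.symm, h4.symm⟩
    funext i
    rcases i with ⟨b, s⟩
    cases s
    · exact (hb b).1
    · exact (hb b).2
  subst hcc
  intro z hz
  rw [mem_coe, mem_Tc] at hz
  obtain ⟨a, b, ha, hb, hab, rfl⟩ := hz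
  refine hadj _ ?_ _ ?_ fun h => hab (e.injective h)
  · have h1 : a ∈ Q' := by rw [hc']; exact mem_filter.2 ⟨mem_univ _, ha⟩
    exact (mem_filter.1 h1).2
  · have h1 : b ∈ Q' := by rw [hc']; exact mem_filter.2 ⟨mem_univ _, hb⟩
    exact (mem_filter.1 h1).2

theorem PA_Tc (e : VA d t κ ↪ Fin n) (c : Bk d → Fin t) :
    PA (2 * (d + 1) + κ) (Tc e c : Set (Sym2 (Fin n))) := by
  classical
  unfold PA SimpleGraph.CliqueFree
  push Not
  refine ⟨(tr c).map e, ?_⟩
  rw [SimpleGraph.isNClique_iff]
  refine ⟨?_, by rw [card_map, card_tr]⟩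
  intro u hu v hv huv
  rw [SimpleGraph.fromEdgeSet_adj]
  refine ⟨?_, huv⟩
  rw [mem_coe, Tc, mem_filter, mk_mem_sym2_iff]
  exact ⟨⟨hu, hv⟩, huv⟩

theorem Tc_ne_none (e : VA d t κ ↪ Fin n) (c : Bk d → Fin t) (z : Sym2 (Fin n))
    (hz : z ∈ Tc e c) : kapA e z ≠ none := by
  rw [mem_Tc] at hz
  obtain ⟨a, b, ha, hb, hab, rfl⟩ := hz
  rw [kapA_mk]
  exact cell_ne_none c ha hb hab

/-- The group whose edges with `i` have the index `l` and are owned by `i`. -/
def partner (i : Bk d) (l : Fin d) : Bk d :=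
  (i.1.succAbove l, if i.1 < i.1.succAbove l then i.2 else !i.2)

theorem own_partner (i : Bk d) (l : Fin d) : own i (partner i l) := by
  unfold own partner
  by_cases h : i.1 < i.1.succAbove l
  · simp [h]
  · simp [h]

theorem eq_partner {i j : Bk d} (h : j.1 ≠ i.1) (ho : own i j) : j = partner i (idx h) := by
  refine Prod.ext ?_ ?_
  · simp [partner, succAbove_idx]
  · unfold own at ho
    simp only [partner, succAbove_idx]
    by_cases h2 : i.1 < j.1
    · rw [if_pos h2]
      exact (ho.1 h2).symm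
    · rw [if_neg h2]
      have h3 : i.2 ≠ j.2 := fun h3 => h2 (ho.2 h3)
      rcases i with ⟨i, bi⟩
      rcases j with ⟨j, bj⟩
      cases bi <;> cases bj <;> simp_all

/-- The other vertex of the edge of the choice with a given variable. -/
def other (c : Bk d → Fin t) (i : Bk d) : Fin d ⊕ Fin κ → VA d t κ
  | Sum.inl l => Sum.inl (partner i l, c (partner i l))
  | Sum.inr w => Sum.inr w

theorem inTr_other (c : Bk d → Fin t) (i : Bk d) (s : Fin d ⊕ Fin κ) :
    inTr c (other c i s) := by
  rcases s with l | w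
  · exact rfl
  · exact trivial

theorem other_ne (c : Bk d → Fin t) (i : Bk d) (p : Fin t) (s : Fin d ⊕ Fin κ) :
    (Sum.inl (i, p) : VA d t κ) ≠ other c i s := by
  rcases s with l | w
  · intro h
    have h1 : i = partner i l := by
      have := Sum.inl.inj h
      exact (Prod.ext_iff.1 this).1
    have h2 : i.1 = i.1.succAbove l := (Prod.ext_iff.1 h1).1
    exact Fin.succAbove_ne _ _ h2.symm
  · simp [other]

theorem cell_other (c : Bk d → Fin t) (i : Bk d) (p : Fin t) (s : Fin d ⊕ Fin κ) :
    cell (Sum.inl (i, p)) (other c i s) = some (some (Sum.inl (i, (p, s)))) := by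
  rcases s with l | w
  · have h1 : (partner i l).1 ≠ i.1 := Fin.succAbove_ne _ _
    have h2 : idx h1 = l := idx_succAbove i.1 l
    simp only [other, cell, dif_neg (Ne.symm h1), if_pos (own_partner i l)]
    rw [h2]
  · rfl

theorem eq_of_cell (c : Bk d → Fin t) {a b : VA d t κ} (ha : inTr c a) (hb : inTr c b)
    {i : Bk d} {p : Fin t} {s : Fin d ⊕ Fin κ}
    (h : cell a b = some (some (Sum.inl (i, (p, s))))) :
    (a = Sum.inl (i, p) ∧ b = other c i s ∧ p = c i) ∨
      (b = Sum.inl (i, p) ∧ a = other c i s ∧ p = c i) := by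
  rcases a with ⟨i', p'⟩ | w <;> rcases b with ⟨j, q⟩ | w'
  · simp only [inTr] at ha hb
    subst ha hb
    by_cases h1 : i'.1 = j.1
    · by_cases h2 : i'.2 = j.2
      · simp [cell, h1, h2] at h
      · simp [cell, h1, h2] at h
    · by_cases h2 : own i' j
      · simp only [cell, dif_neg h1, if_pos h2, Option.some.injEq, Sum.inl.injEq,
          Prod.mk.injEq] at h
        obtain ⟨rfl, rfl, rfl⟩ := h
        left
        refine ⟨rfl, ?_, rfl⟩
        have h3 := eq_partner (Ne.symm h1) h2
        show (Sum.inl (j, c j) : VA d t κ) = Sum.inl (partner i' _, c (partner i' _))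
        rw [← h3]
      · simp only [cell, dif_neg h1, if_neg h2, Option.some.injEq, Sum.inl.injEq,
          Prod.mk.injEq] at h
        obtain ⟨rfl, rfl, rfl⟩ := h
        right
        refine ⟨rfl, ?_, rfl⟩
        have h3 := eq_partner h1 ((own_swap h1).2 h2)
        show (Sum.inl (i', c i') : VA d t κ) = Sum.inl (partner j _, c (partner j _))
        rw [← h3]
  · simp only [inTr] at ha
    subst ha
    simp only [cell, Option.some.injEq, Sum.inl.injEq, Prod.mk.injEq] at h
    obtain ⟨rfl, rfl, rfl⟩ := h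
    exact Or.inl ⟨rfl, rfl, rfl⟩
  · simp only [inTr] at hb
    subst hb
    simp only [cell, Option.some.injEq, Sum.inl.injEq, Prod.mk.injEq] at h
    obtain ⟨rfl, rfl, rfl⟩ := h
    exact Or.inr ⟨rfl, rfl, rfl⟩
  · by_cases h1 : w = w'
    · simp [cell, h1] at h
    · simp [cell, h1] at h

open Classical in
/-- The edges of a choice with a given variable `x`: at most one. -/
theorem filter_X (e : VA d t κ ↪ Fin n) (c : Bk d → Fin t) (x : XA d t κ) :
    (Tc e c).filter (fun z => kapA e z = some (some (Sum.inl x))) =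
      if x.2.1 = c x.1 then {s(e (Sum.inl (x.1, x.2.1)), e (other c x.1 x.2.2))} else ∅ := by
  obtain ⟨i, p, s⟩ := x
  dsimp only
  split_ifs with hp
  · ext z
    rw [mem_filter, mem_singleton, mem_Tc]
    constructor
    · rintro ⟨⟨a, b, ha, hb, -, rfl⟩, h⟩
      rw [kapA_mk] at h
      rcases eq_of_cell c ha hb h with ⟨rfl, rfl, -⟩ | ⟨rfl, rfl, -⟩
      · rfl
      · exact Sym2.eq_swap
    · rintro rfl
      refine ⟨⟨_, _, ?_, inTr_other c i s, other_ne c i p s, rfl⟩, ?_⟩
      · exact hp
      · rw [kapA_mk, cell_other]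
  · apply eq_empty_of_forall_notMem
    intro z hz
    rw [mem_filter, mem_Tc] at hz
    obtain ⟨⟨a, b, ha, hb, -, rfl⟩, h⟩ := hz
    rw [kapA_mk] at h
    rcases eq_of_cell c ha hb h with ⟨-, -, h1⟩ | ⟨-, -, h1⟩
    · exact hp h1
    · exact hp h1

theorem cell_Y (c : Bk d → Fin t) {a b : VA d t κ} (ha : inTr c a) (hb : inTr c b)
    {y : YA d t} (h : cell a b = some (some (Sum.inr y))) :
    y = ycA c y.1 ∧ ((a = Sum.inl ((y.1, false), c (y.1, false)) ∧
      b = Sum.inl ((y.1, true), c (y.1, true))) ∨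
      (b = Sum.inl ((y.1, false), c (y.1, false)) ∧
      a = Sum.inl ((y.1, true), c (y.1, true)))) := by
  rcases a with ⟨i, p⟩ | w <;> rcases b with ⟨j, q⟩ | w'
  · simp only [inTr] at ha hb
    subst ha hb
    by_cases h1 : i.1 = j.1
    · rcases i with ⟨i, bi⟩
      rcases j with ⟨j, bj⟩
      simp only at h1
      subst h1
      cases bi <;> cases bj
      · simp [cell] at h
      · simp only [cell, Option.some.injEq, Sum.inr.injEq, dite_true, reduceCtorEq,
          if_false] at h
        subst h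
        exact ⟨rfl, Or.inl ⟨rfl, rfl⟩⟩
      · simp only [cell, Option.some.injEq, Sum.inr.injEq, dite_true, reduceCtorEq,
          if_false] at h
        subst h
        exact ⟨rfl, Or.inr ⟨rfl, rfl⟩⟩
      · simp [cell] at h
    · by_cases h2 : own i j
      · simp [cell, h1, h2] at h
      · simp [cell, h1, h2] at h
  · simp [cell] at h
  · simp [cell] at h
  · by_cases h1 : w = w'
    · simp [cell, h1] at h
    · simp [cell, h1] at h

open Classical in
/-- The edges of a choice with a given variable `y`: at most one. -/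
theorem filter_Y (e : VA d t κ ↪ Fin n) (c : Bk d → Fin t) (y : YA d t) :
    (Tc e c).filter (fun z => kapA e z = some (some (Sum.inr y))) =
      if y = ycA c y.1 then {s(e (Sum.inl ((y.1, false), c (y.1, false))),
        e (Sum.inl ((y.1, true), c (y.1, true))))} else ∅ := by
  split_ifs with hp
  · ext z
    rw [mem_filter, mem_singleton, mem_Tc]
    constructor
    · rintro ⟨⟨a, b, ha, hb, -, rfl⟩, h⟩
      rw [kapA_mk] at h
      rcases (cell_Y c ha hb h).2 with ⟨rfl, rfl⟩ | ⟨rfl, rfl⟩
      · rfl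
      · exact Sym2.eq_swap
    · rintro rfl
      refine ⟨⟨Sum.inl ((y.1, false), c (y.1, false)), Sum.inl ((y.1, true), c (y.1, true)),
        rfl, rfl, by simp, rfl⟩, ?_⟩
      rw [kapA_mk]
      conv_rhs => rw [hp]
      simp [cell, ycA]
  · apply eq_empty_of_forall_notMem
    intro z hz
    rw [mem_filter, mem_Tc] at hz
    obtain ⟨⟨a, b, ha, hb, -, rfl⟩, h⟩ := hz
    rw [kapA_mk] at h
    exact hp (cell_Y c ha hb h).1

/-- The monomial of the choice. -/
noncomputable def MA (c : Bk d → Fin t) : XA d t κ →₀ ℕ :=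
  Finsupp.equivFunOnFinite.symm fun x => if x.2.1 = c x.1 then 1 else 0

theorem MA_apply (c : Bk d → Fin t) (x : XA d t κ) :
    MA c x = if x.2.1 = c x.1 then 1 else 0 := rfl

open Classical in
theorem card_filter_X (e : VA d t κ ↪ Fin n) (c : Bk d → Fin t) (x : XA d t κ) :
    ((Tc e c).filter (fun z => kapA e z = some (some (Sum.inl x)))).card = MA c x := by
  rw [filter_X, MA_apply]
  split_ifs <;> simp

open Classical in
theorem card_filter_Y (e : VA d t κ ↪ Fin n) (c : Bk d → Fin t) (y : YA d t) :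
    ((Tc e c).filter (fun z => kapA e z = some (some (Sum.inr y)))).card =
      if y ∈ Set.range (ycA c) then 1 else 0 := by
  rw [filter_Y]
  have h : y = ycA c y.1 ↔ y ∈ Set.range (ycA c) := by
    constructor
    · intro h
      exact ⟨y.1, h.symm⟩
    · rintro ⟨b, rfl⟩
      rfl
  by_cases h2 : y = ycA c y.1
  · rw [if_pos h2, if_pos (h.1 h2), card_singleton]
  · rw [if_neg h2, if_neg (fun h3 => h2 (h.2 h3)), card_empty]

theorem degree_MA (c : Bk d → Fin t) :
    (MA (κ := κ) c).degree = 2 * (d + 1) * (d + κ) := by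
  rw [Finsupp.degree_eq_sum]
  simp only [MA_apply]
  rw [Fintype.sum_prod_type]
  simp only [Fintype.sum_prod_type]
  have h : ∀ i : Bk d, ∑ p : Fin t, ∑ _s : Fin d ⊕ Fin κ, (if p = c i then 1 else 0) =
      d + κ := by
    intro i
    rw [Finset.sum_comm]
    simp
  simp only [h]
  simp
  ring

/-- `ν` is a multiple of the monomial of some choice. -/
theorem exists_MA_le (ν : XA d t κ → ℕ) :
    (∃ c : Bk d → Fin t, ∀ x, MA c x ≤ ν x) ↔ ∀ i, ∃ p, ∀ s, 1 ≤ ν (i, (p, s)) := by
  constructor
  · rintro ⟨c, hc⟩ i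
    refine ⟨c i, fun s => ?_⟩
    have := hc (i, (c i, s))
    rwa [MA_apply, if_pos rfl] at this
  · intro h
    choose c hc using h
    refine ⟨c, fun x => ?_⟩
    rw [MA_apply]
    split_ifs with h1
    · obtain ⟨i, p, s⟩ := x
      dsimp only at h1
      subst h1
      exact hc i s
    · exact Nat.zero_le _

end Pool.Agent.Helper72.CLQ
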