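import Pool.Agent.Helper67.SDet.Block

/-!
# Mixed derivatives of polynomials after a substitution
-/

set_option autoImplicit false

namespace Pool.Agent.Helper72.CLQ

open Finset Matrix MvPolynomial Pool.Agent.SDet

variable {K : Type} [Field K] {S τ : Type}

/-- Substitute, differentiate once in each of the new variables, and set them to `0`. -/
noncomputable def Gs {D : ℕ} (φ : S → MvPolynomial (τ ⊕ Fin D) K) :
    MvPolynomial S K →ₗ[K] MvPolynomial τ K :=
  (eps K τ D).toLinearMap ∘ₗ iter (List.finRange D) ∘ₗ (aeval φ).toLinearMap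

theorem Gs_det_mem {D m : ℕ} (φ : S → MvPolynomial (τ ⊕ Fin D) K) (φ0 : S → MvPolynomial τ K)
    (hφ : ∀ x, (φ x).totalDegree ≤ 1) (h0 : ∀ x, eps K τ D (φ x) = φ0 x)
    (A : Matrix (Fin m) (Fin m) (MvPolynomial S K)) (hA : ∀ i j, (A i j).totalDegree ≤ 1) :
    Gs φ A.det ∈ Mn K (A.map (aeval φ0)) (m - D) := by
  have h1 : (eps K τ D).comp (aeval φ : MvPolynomial S K →ₐ[K] MvPolynomial (τ ⊕ Fin D) K) =
      aeval φ0 := by
    refine MvPolynomial.algHom_ext fun q => ?_
    rw [AlgHom.comp_apply, aeval_X, aeval_X, h0]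
  have hcomp : ∀ p, eps K τ D (aeval φ p) = aeval φ0 p := fun p =>
    congrArg (fun ψ : MvPolynomial S K →ₐ[K] MvPolynomial τ K => ψ p) h1
  have h6 : iter (List.finRange D) (aeval φ A.det) ∈
      Mn K (A.map (aeval φ : MvPolynomial S K →ₐ[K] MvPolynomial (τ ⊕ Fin D) K)) (m - D) := by
    have h7 := iter_mem (List.finRange D)
      (A.map (aeval φ : MvPolynomial S K →ₐ[K] MvPolynomial (τ ⊕ Fin D) K)) (fun a b =>
      (totalDegree_aeval_le' φ hφ _).trans (hA a b))
      (det_mem_Mn (K := K) (A.map (aeval φ : MvPolynomial S K →ₐ[K] MvPolynomial (τ ⊕ Fin D) K)))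
    rw [List.length_finRange] at h7
    rw [AlgHom.map_det]
    exact h7
  have h8 := map_Mn (eps K τ D) _ h6
  have h9 : (A.map (aeval φ : MvPolynomial S K →ₐ[K] MvPolynomial (τ ⊕ Fin D) K)).map
      (eps K τ D) = A.map (aeval φ0) := by
    ext1 a b
    simp only [Matrix.map_apply]
    rw [hcomp]
  rw [h9] at h8
  exact h8

theorem eps_X_inr {D : ℕ} (b : Fin D) : eps K τ D (X (Sum.inr b)) = 0 := by
  simp [eps]

theorem pderiv_comm {σ : Type*} (i j : σ) (p : MvPolynomial σ K) :
    pderiv i (pderiv j p) = pderiv j (pderiv i p) := by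
  classical
  have h : ⁅(pderiv i : Derivation K (MvPolynomial σ K) (MvPolynomial σ K)),
      (pderiv j : Derivation K (MvPolynomial σ K) (MvPolynomial σ K))⁆ = 0 := by
    refine MvPolynomial.derivation_ext fun k => ?_
    rw [Derivation.commutator_apply, pderiv_X, pderiv_X, Derivation.coe_zero, Pi.zero_apply]
    simp [Pi.single_apply, apply_ite]
  have h2 := congrArg (fun δ : Derivation K (MvPolynomial σ K) (MvPolynomial σ K) => δ p) h
  simp only [Derivation.commutator_apply, Derivation.coe_zero, Pi.zero_apply] at h2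
  exact sub_eq_zero.1 h2

theorem iter_pderiv {D : ℕ} (l : List (Fin D)) (b : Fin D) (G : MvPolynomial (τ ⊕ Fin D) K) :
    iter l (pderiv (Sum.inr b) G) = pderiv (Sum.inr b) (iter l G) := by
  induction l with
  | nil => rfl
  | cons c l ih => rw [iter_cons, iter_cons, ih, pderiv_comm]

theorem pderiv_prod_X {D : ℕ} (l : List (Fin D)) (b : Fin D) (hb : b ∉ l) :
    pderiv (Sum.inr b) ((l.map fun c => (X (Sum.inr c) : MvPolynomial (τ ⊕ Fin D) K)).prod) =
      0 := by
  induction l with
  | nil => simp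
  | cons c l ih =>
    rw [List.mem_cons, not_or] at hb
    rw [List.map_cons, List.prod_cons, Derivation.leibniz, ih hb.2,
      pderiv_X_of_ne (fun h => hb.1 (Sum.inr.inj h).symm)]
    simp

/-- `iter` of a multiple of the product of the new variables. -/
theorem eps_iter {D : ℕ} (l : List (Fin D)) (hl : l.Nodup) (G : MvPolynomial (τ ⊕ Fin D) K) :
    eps K τ D (iter l ((l.map fun b => X (Sum.inr b)).prod * G)) = eps K τ D G := by
  induction l generalizing G with
  | nil => simp [iter_nil]
  | cons b l ih =>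
    rw [List.nodup_cons] at hl
    rw [iter_cons, ← iter_pderiv, List.map_cons, List.prod_cons]
    have h : pderiv (Sum.inr b) (X (Sum.inr b) *
        (l.map fun c => (X (Sum.inr c) : MvPolynomial (τ ⊕ Fin D) K)).prod * G) =
        (l.map fun c => (X (Sum.inr c) : MvPolynomial (τ ⊕ Fin D) K)).prod *
          (G + X (Sum.inr b) * pderiv (Sum.inr b) G) := by
      rw [Derivation.leibniz, Derivation.leibniz, pderiv_prod_X l b hl.1, pderiv_X_self]
      simp only [smul_eq_mul]
      ring
    rw [h, ih hl.2, map_add, map_mul, eps_X_inr, zero_mul, add_zero]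

theorem eps_iter_finRange {D : ℕ} (G : MvPolynomial (τ ⊕ Fin D) K) :
    eps K τ D (iter (List.finRange D) ((∏ b, X (Sum.inr b)) * G)) = eps K τ D G := by
  have h := eps_iter (List.finRange D) (List.nodup_finRange D) G
  rwa [← List.ofFn_eq_map, List.prod_ofFn] at h

end Pool.Agent.Helper72.CLQ
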