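import Pool.Agent.Helper72.CLQ.Num

/-!
# Numerical part, second gadget
-/

set_option autoImplicit false

namespace Pool.Agent.Helper72.CLQ

open Real Finset

theorem pow_half_le (l : ℕ) : (2 : ℝ) ^ l / 2 ≤ (2 - 1 / ((l : ℝ) + 1)) ^ l := by
  have h0 : (0 : ℝ) < (l : ℝ) + 1 := by positivity
  have h1 : (1 : ℝ) / 2 ≤ (1 - 1 / (2 * ((l : ℝ) + 1))) ^ l := by
    have h2 := one_add_mul_le_pow (a := -(1 / (2 * ((l : ℝ) + 1)))) (by
      have : 1 / (2 * ((l : ℝ) + 1)) ≤ 1 := by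
        rw [div_le_one (by positivity)]
        have : (0 : ℝ) ≤ l := Nat.cast_nonneg l
        linarith
      linarith) l
    refine le_trans ?_ (h2.trans_eq (by rw [← sub_eq_add_neg]))
    rw [mul_neg, ← sub_eq_add_neg, mul_one_div]
    have h3 : (l : ℝ) / (2 * ((l : ℝ) + 1)) ≤ 1 / 2 := by
      rw [div_le_div_iff₀ (by positivity) (by norm_num)]
      linarith
    linarith
  have h4 : (2 - 1 / ((l : ℝ) + 1)) = 2 * (1 - 1 / (2 * ((l : ℝ) + 1))) := by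
    field_simp
  rw [h4, mul_pow]
  have h5 : (0 : ℝ) < 2 ^ l := by positivity
  nlinarith

/-- The bound from the second gadget. -/
theorem num_B {n k m r l : ℕ} (hk : 3 ≤ k) (hkn : 2 * k ≤ n) (hm : k * (k - 1) ≤ 2 * m)
    (hB : ∀ D l L R : ℕ, 1 ≤ D → 1 ≤ l → 1 ≤ L → 1 ≤ R → 2 * D * (1 + l * L) + R ≤ k →
      2 * D * (2 ^ l - 1 + l * L) ≤ n - k → ∀ q : ℝ, 0 < q → q < 1 →
      (2 - q ^ (L * R)) ^ (2 * D * l) ≤ r * (SS m D (1 - q)) ^ 2)
    (hr : 1 ≤ r) (hl : 4 ≤ l) (h1 : l * n ≤ 2 ^ l * k)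
    (h2 : 192 * exp 1 * m * l * log ((l : ℝ) + 1) ≤ 2 ^ l * (k : ℝ) ^ 2)
    (h3 : 8 * 2 ^ l ≤ n) : exp ((n : ℝ) / (16 * 2 ^ l)) ≤ r := by
  have h2l : 0 < 2 ^ l := by positivity
  obtain ⟨D, hD⟩ : ∃ D, D = n / (8 * 2 ^ l) := ⟨_, rfl⟩
  have hD1 : 1 ≤ D := by
    rw [hD, Nat.le_div_iff_mul_le (by positivity), one_mul]
    exact h3
  have hDn : 8 * 2 ^ l * D ≤ n := by rw [hD]; exact Nat.mul_div_le n _
  have hDn' : n ≤ 16 * 2 ^ l * D := by
    have h4 : n < 8 * 2 ^ l * (D + 1) := by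
      rw [hD, mul_comm]
      exact Nat.lt_mul_of_div_lt (Nat.lt_succ_self _) (by positivity)
    have h5 : 8 * 2 ^ l * (D + 1) ≤ 8 * 2 ^ l * (2 * D) := Nat.mul_le_mul_left _ (by omega)
    calc n ≤ 8 * 2 ^ l * (2 * D) := (h4.trans_le h5).le
      _ = 16 * 2 ^ l * D := by ring
  have hDlk : 8 * D * l ≤ k := by
    have h4 : 2 ^ l * (8 * D * l) ≤ 2 ^ l * k := by
      calc 2 ^ l * (8 * D * l) = l * (8 * 2 ^ l * D) := by ring
        _ ≤ l * n := Nat.mul_le_mul_left _ hDn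
        _ ≤ 2 ^ l * k := h1
    exact Nat.le_of_mul_le_mul_left h4 h2l
  have hDl1 : 1 ≤ 8 * D * l := by
    have : 1 ≤ D * l := Nat.mul_pos hD1 (by omega)
    calc 1 ≤ 8 * (D * l) := by omega
      _ = 8 * D * l := by ring
  obtain ⟨L, hL⟩ : ∃ L, L = k / (8 * D * l) := ⟨_, rfl⟩
  have hL1 : 1 ≤ L := by
    rw [hL, Nat.le_div_iff_mul_le (by omega), one_mul]
    exact hDlk
  have hLk : 8 * D * l * L ≤ k := by rw [hL]; exact Nat.mul_div_le k _
  have hLk' : k ≤ 16 * D * l * L := by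
    have h4 : k < 8 * D * l * (L + 1) := by
      rw [hL, mul_comm]
      exact Nat.lt_mul_of_div_lt (Nat.lt_succ_self _) (by omega)
    have h5 : 8 * D * l * (L + 1) ≤ 8 * D * l * (2 * L) := Nat.mul_le_mul_left _ (by omega)
    calc k ≤ 8 * D * l * (2 * L) := (h4.trans_le h5).le
      _ = 16 * D * l * L := by ring
  obtain ⟨R, hR⟩ : ∃ R, R = k / 2 := ⟨_, rfl⟩
  have hR1 : 1 ≤ R := by omega
  have hRk : 2 * R ≤ k := by omega
  have hRk' : k ≤ 3 * R := by omega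
  have h8D : 8 * D ≤ k := by
    refine le_trans ?_ hDlk
    calc 8 * D = 8 * D * 1 := by ring
      _ ≤ 8 * D * l := Nat.mul_le_mul_left _ (by omega)
  have hc1 : 2 * D * (1 + l * L) + R ≤ k := by
    have h4 : 2 * D * (1 + l * L) = 2 * D + 2 * D * l * L := by ring
    have h5 : 8 * D * l * L = 4 * (2 * D * l * L) := by ring
    omega
  have hc2 : 2 * D * (2 ^ l - 1 + l * L) ≤ n - k := by
    have h4 : 2 * D * (2 ^ l - 1 + l * L) ≤ 2 * D * (2 ^ l + l * L) :=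
      Nat.mul_le_mul_left _ (by omega)
    have h5 : 8 * D * l * L = 4 * (2 * D * l * L) := by ring
    have h6 : 8 * 2 ^ l * D = 4 * (2 * D * 2 ^ l) := by ring
    have h7 : 2 * D * (2 ^ l + l * L) = 2 * D * 2 ^ l + 2 * D * l * L := by ring
    omega
  have hDm : D < m := by
    have h9 : 3 * (k - 1) ≤ k * (k - 1) := Nat.mul_le_mul_right _ hk
    omega
  -- reals
  have hm0 : (0 : ℝ) < m := by exact_mod_cast (by omega : 0 < m)
  have hD0 : (0 : ℝ) < D := by exact_mod_cast hD1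
  have hL0 : (0 : ℝ) < L := by exact_mod_cast hL1
  have hR0 : (0 : ℝ) < R := by exact_mod_cast hR1
  have hl0 : (0 : ℝ) < l := by exact_mod_cast (by omega : 0 < l)
  have h2l0 : (0 : ℝ) < 2 ^ l := by positivity
  have he : exp 1 < 2.7182818286 := Real.exp_one_lt_d9
  have he0 : 0 < exp 1 := exp_pos 1
  have hLR1 : 1 ≤ L * R := Nat.mul_pos hL1 hR1
  obtain ⟨hq0, hq1, hqs, hqx⟩ := root_props (a := (l : ℝ) + 1) (by linarith) hLR1
  set q := exp (-(log ((l : ℝ) + 1) / (L * R : ℕ))) with hq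
  have hx : log ((l : ℝ) + 1) / (L * R : ℕ) ≤ 2 ^ l * D / (4 * exp 1 * m) := by
    rw [div_le_div_iff₀ (by positivity) (by positivity)]
    push_cast
    -- `log (l+1) * (4 e m) ≤ 2^l D (L R)`
    have h10 : (k : ℝ) * k ≤ 48 * l * (L * R * D) := by
      have h11 : k * k ≤ (16 * D * l * L) * (3 * R) := Nat.mul_le_mul hLk' hRk'
      have h12 : (k : ℝ) * k ≤ (16 * D * l * L) * (3 * R) := by exact_mod_cast h11
      calc (k : ℝ) * k ≤ (16 * D * l * L) * (3 * R) := h12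
        _ = 48 * l * (L * R * D) := by ring
    have h13 : 192 * exp 1 * m * l * log ((l : ℝ) + 1) ≤ 2 ^ l * (48 * l * (L * R * D)) := by
      refine h2.trans ?_
      rw [sq]
      gcongr
    have h14 : (48 * (l : ℝ)) * (log ((l : ℝ) + 1) * (4 * exp 1 * m)) ≤
        (48 * l) * (2 ^ l * D * (L * R)) := by
      calc (48 * (l : ℝ)) * (log ((l : ℝ) + 1) * (4 * exp 1 * m))
          = 192 * exp 1 * m * l * log ((l : ℝ) + 1) := by ring
        _ ≤ 2 ^ l * (48 * l * (L * R * D)) := h13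
        _ = (48 * l) * (2 ^ l * D * (L * R)) := by ring
    exact le_of_mul_le_mul_left h14 (by positivity)
  have hmy : (D : ℝ) ≤ m * (2 ^ l * D / (4 * exp 1 * m)) := by
    have h15 : (m : ℝ) * (2 ^ l * D / (4 * exp 1 * m)) = D * (2 ^ l / (4 * exp 1)) := by
      field_simp
    rw [h15]
    have h16 : (16 : ℝ) ≤ 2 ^ l := by
      calc (16 : ℝ) = 2 ^ 4 := by norm_num
        _ ≤ 2 ^ l := pow_le_pow_right₀ (by norm_num) hl
    have h17 : 1 ≤ (2 : ℝ) ^ l / (4 * exp 1) := by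
      rw [le_div_iff₀ (by positivity)]
      linarith
    nlinarith
  have hS := SS_le (x := 1 - q) hD1 hDm (by linarith) (hqx.trans hx) hmy
  have h18 : exp 1 * (m * (2 ^ l * D / (4 * exp 1 * m))) / D = 2 ^ l / 4 := by
    field_simp
  rw [h18] at hS
  have hS0 := SS_nonneg m D (x := 1 - q) (by linarith)
  have hmain := hB D l L R hD1 (by omega) hL1 hR1 hc1 hc2 q hq0 hq1
  rw [hqs] at hmain
  have h19 : ((2 : ℝ) ^ l / 2) ^ (2 * D) ≤ (2 - 1 / ((l : ℝ) + 1)) ^ (2 * D * l) := by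
    rw [mul_comm (2 * D) l, pow_mul _ l (2 * D)]
    exact pow_le_pow_left₀ (by positivity) (pow_half_le l) (2 * D)
  have h20 : (SS m D (1 - q)) ^ 2 ≤ ((2 : ℝ) ^ l / 4) ^ (2 * D) := by
    rw [mul_comm 2 D, pow_mul]
    exact pow_le_pow_left₀ hS0 hS 2
  have h21 : (2 : ℝ) ^ (2 * D) ≤ r := by
    have h22 : (2 : ℝ) ^ (2 * D) * ((2 : ℝ) ^ l / 4) ^ (2 * D) ≤
        r * ((2 : ℝ) ^ l / 4) ^ (2 * D) := by
      rw [← mul_pow]
      have h23 : (2 : ℝ) * (2 ^ l / 4) = 2 ^ l / 2 := by ring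
      rw [h23]
      refine (h19.trans hmain).trans ?_
      gcongr
    exact le_of_mul_le_mul_right h22 (by positivity)
  refine le_trans ?_ h21
  have h24 : (n : ℝ) / (16 * 2 ^ l) ≤ D := by
    rw [div_le_iff₀ (by positivity)]
    have h25 : (n : ℝ) ≤ 16 * 2 ^ l * D := by exact_mod_cast hDn'
    linarith
  calc exp ((n : ℝ) / (16 * 2 ^ l)) ≤ exp (D : ℝ) := exp_le_exp.2 h24
    _ = exp 1 ^ D := by rw [← exp_nat_mul, mul_one]
    _ ≤ 4 ^ D := pow_le_pow_left₀ he0.le (by linarith) _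
    _ = (2 : ℝ) ^ (2 * D) := by
        rw [pow_mul]
        norm_num

end Pool.Agent.Helper72.CLQ
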