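import Pool.Agent.Helper72.CLQ.NumB

/-!
# Numerical part, closed form
-/

set_option autoImplicit false

namespace Pool.Agent.Helper72.CLQ

open Real Finset

theorem log_le_sqrt {u : ℝ} (hu : 0 < u) : log u ≤ sqrt u := by
  set a := sqrt (sqrt u) with ha
  have ha0 : 0 < a := sqrt_pos.2 (sqrt_pos.2 hu)
  have h1 : log a = log u / 2 / 2 := by
    rw [ha, log_sqrt (sqrt_nonneg _), log_sqrt hu.le]
  have h2 := Real.log_le_sub_one_of_pos ha0
  have h3 : a ^ 2 = sqrt u := sq_sqrt (sqrt_nonneg _)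
  nlinarith [sq_nonneg (a - 2)]

/-- `u ≤ x v log u` forces `log u` to be small. -/
theorem log_u_le {u v x : ℝ} (hu : 2 ≤ u) (hv : 0 < v) (hx : 0 < x) (h : u ≤ x * v * log u) :
    log u ≤ 2 * (log x + log (2 + v)) := by
  have hu0 : 0 < u := by linarith
  have hs0 : 0 < sqrt u := sqrt_pos.2 hu0
  have h1 : u ≤ x * v * sqrt u := h.trans (by
    have := log_le_sqrt hu0
    have h2 : 0 ≤ x * v := by positivity
    exact mul_le_mul_of_nonneg_left this h2)
  have h2 : sqrt u ≤ x * v := by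
    have h3 : sqrt u * sqrt u ≤ x * v * sqrt u := by rwa [mul_self_sqrt hu0.le]
    exact le_of_mul_le_mul_right h3 hs0
  have h3 : log (sqrt u) ≤ log (x * v) := log_le_log hs0 h2
  rw [log_sqrt hu0.le, log_mul hx.ne' hv.ne'] at h3
  have h4 : log v ≤ log (2 + v) := log_le_log hv (by linarith)
  linarith

theorem exp_two_le : exp 1 * exp 1 ≤ 7.39 := by
  have h := Real.exp_one_lt_d9
  have h0 : 0 < exp 1 := exp_pos 1
  nlinarith

theorem log_36e_le : log (36 * exp 1) ≤ 5 := by
  have h : 36 * exp 1 ≤ exp 5 := by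
    have h1 : exp 5 = exp 1 ^ 4 * exp 1 := by
      rw [← pow_succ, ← exp_nat_mul]
      norm_num
    rw [h1]
    have h2 : (36 : ℝ) ≤ exp 1 ^ 4 := by
      have h3 := Real.exp_one_gt_d9
      calc (36 : ℝ) ≤ 2.7 ^ 4 := by norm_num
        _ ≤ exp 1 ^ 4 := pow_le_pow_left₀ (by norm_num) (by linarith) 4
    exact mul_le_mul_of_nonneg_right h2 (exp_pos 1).le
  calc log (36 * exp 1) ≤ log (exp 5) := log_le_log (by positivity) h
    _ = 5 := log_exp 5

theorem log_267_le : log (267 : ℝ) ≤ 6 := by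
  have h : (267 : ℝ) ≤ exp 6 := by
    have h1 : exp 6 = exp 1 ^ 6 := by
      rw [← exp_nat_mul]
      norm_num
    rw [h1]
    have h3 := Real.exp_one_gt_d9
    calc (267 : ℝ) ≤ 2.7 ^ 6 := by norm_num
      _ ≤ exp 1 ^ 6 := pow_le_pow_left₀ (by norm_num) (by linarith) 6
  calc log (267 : ℝ) ≤ log (exp 6) := log_le_log (by norm_num) h
    _ = 6 := log_exp 6

theorem log_2e6_le : log (2000000 : ℝ) ≤ 15 := by
  have h : (2000000 : ℝ) ≤ exp 15 := by
    have h1 : exp 15 = exp 1 ^ 15 := by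
      rw [← exp_nat_mul]
      norm_num
    rw [h1]
    have h3 := Real.exp_one_gt_d9
    calc (2000000 : ℝ) ≤ 2.718 ^ 15 := by norm_num
      _ ≤ exp 1 ^ 15 := pow_le_pow_left₀ (by norm_num) (by linarith) 15
  calc log (2000000 : ℝ) ≤ log (exp 15) := log_le_log (by norm_num) h
    _ = 15 := log_exp 15

/-- First range. -/
theorem case_one {u v x : ℝ} (hu : 2 ≤ u) (hv : 0 < v) (hx : exp 1 ≤ x)
    (h : u = 36 * exp 1 * x * v * log u) :
    1 + u / v / log (2 + v) ^ 2 ≤ x ^ 10 := by
  have he := Real.exp_one_gt_d9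
  have he' := Real.exp_one_lt_d9
  have hx0 : 0 < x := lt_of_lt_of_le (exp_pos 1) hx
  have hx2 : 2.7 < x := by linarith
  have hL : 0.69 < log (2 + v) := log_two_gt.trans_le (log_le_log (by norm_num) (by linarith))
  set L := log (2 + v) with hLdef
  have hL0 : 0 < L := by linarith
  have h1 : log u ≤ 2 * (log (36 * exp 1 * x) + L) :=
    log_u_le hu hv (by positivity) (by rw [← h])
  have h2 : log (36 * exp 1 * x) ≤ 4 + x := by
    rw [log_mul (by positivity) hx0.ne']
    have h3 := log_36e_le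
    have h4 := Real.log_le_sub_one_of_pos hx0
    linarith
  have h5 : log u ≤ 8 + 2 * x + 2 * L := by linarith
  have h6 : u / v / L ^ 2 = 36 * exp 1 * x * (log u / L ^ 2) := by
    have h7 : u / v = 36 * exp 1 * x * log u := by
      rw [div_eq_iff hv.ne']
      calc u = 36 * exp 1 * x * v * log u := h
        _ = 36 * exp 1 * x * log u * v := by ring
    rw [h7]
    ring
  have h8 : log u / L ^ 2 ≤ 13 * x := by
    rw [div_le_iff₀ (by positivity)]
    have hL2 : 0.476 ≤ L ^ 2 := by nlinarith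
    have hLL : L ≤ 1.45 * L ^ 2 := by nlinarith
    nlinarith
  have hlu : 0 ≤ log u / L ^ 2 := div_nonneg (log_nonneg (by linarith)) (by positivity)
  have h9 : u / v / L ^ 2 ≤ 1273 * x ^ 2 := by
    rw [h6]
    calc 36 * exp 1 * x * (log u / L ^ 2) ≤ 36 * exp 1 * x * (13 * x) := by gcongr
      _ = 468 * exp 1 * x ^ 2 := by ring
      _ ≤ 1273 * x ^ 2 := by
          have : 468 * exp 1 ≤ 1273 := by linarith
          exact mul_le_mul_of_nonneg_right this (by positivity)
  have h10 : (1 : ℝ) ≤ x ^ 2 := by nlinarith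
  have h11 : (1274 : ℝ) ≤ x ^ 8 := by
    calc (1274 : ℝ) ≤ 2.7 ^ 8 := by norm_num
      _ ≤ x ^ 8 := pow_le_pow_left₀ (by norm_num) hx2.le 8
  calc 1 + u / v / L ^ 2 ≤ 1274 * x ^ 2 := by linarith
    _ ≤ x ^ 8 * x ^ 2 := mul_le_mul_of_nonneg_right h11 (by positivity)
    _ = x ^ 10 := by ring

/-- Second range: the number of digits. -/
theorem case_two {u v : ℝ} (hu : 2 ≤ u) (hv : 1 / 3 ≤ v)
    (h : u ≤ 267 * v * log u) :
    ∃ l : ℕ, 4 ≤ l ∧ (l : ℝ) * u ≤ 2 ^ l ∧
      192 * exp 1 * v * l * log ((l : ℝ) + 1) ≤ 2 ^ l ∧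
      (2 : ℝ) ^ l ≤ 2000000 * (v * log (2 + v) ^ 2) := by
  have hv0 : 0 < v := by linarith
  have hL : 0.69 < log (2 + v) := log_two_gt.trans_le (log_le_log (by norm_num) (by linarith))
  have h1 : log u ≤ 2 * (log 267 + log (2 + v)) := log_u_le hu hv0 (by norm_num) h
  have hlv : log v ≤ log (2 + v) := log_le_log hv0 (by linarith)
  set L := log (2 + v) with hLdef
  have hL0 : 0 < L := by linarith
  have h2 := log_267_le
  have h3 : log u ≤ 20 * L := by linarith
  have h4 : u ≤ 5340 * (v * L) := by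
    refine h.trans ?_
    calc 267 * v * log u ≤ 267 * v * (20 * L) := by gcongr
      _ = 5340 * (v * L) := by ring
  have hy16 : (16 : ℝ) ≤ 1000000 * (v * L ^ 2) := by
    have hL2 : 0.476 ≤ L ^ 2 := by nlinarith
    nlinarith
  obtain ⟨n0, hn1, hn2⟩ := exists_nat_pow_near (x := 1000000 * (v * L ^ 2)) (y := (2 : ℝ))
    (by linarith) (by norm_num)
  obtain ⟨l, hl⟩ : ∃ l, l = n0 + 1 := ⟨_, rfl⟩
  rw [← hl] at hn2
  have h2l : (2 : ℝ) ^ l ≤ 2000000 * (v * L ^ 2) := by
    rw [hl, pow_succ]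
    linarith
  have hl4 : 4 ≤ l := by
    by_contra hcon
    have h5 : (2 : ℝ) ^ l ≤ 2 ^ 4 := pow_le_pow_right₀ (by norm_num) (by omega)
    have h6 : (2 : ℝ) ^ 4 = 16 := by norm_num
    linarith
  have hl0 : (0 : ℝ) < l := by exact_mod_cast (by omega : 0 < l)
  have hlL : (l : ℝ) ≤ 32 * L := by
    have h5 : (l : ℝ) * log 2 ≤ log (2000000 * (v * L ^ 2)) := by
      rw [← log_pow]
      exact log_le_log (by positivity) h2l
    rw [log_mul (by norm_num) (by positivity), log_mul hv0.ne' (by positivity), log_pow] at h5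
    push_cast at h5
    have h6 := log_2e6_le
    have h7 := Real.log_le_sub_one_of_pos hL0
    have h8 := log_two_gt
    have h9 : (l : ℝ) * 0.69 ≤ l * log 2 := mul_le_mul_of_nonneg_left h8.le hl0.le
    linarith
  refine ⟨l, hl4, ?_, ?_, h2l⟩
  · calc (l : ℝ) * u ≤ 32 * L * (5340 * (v * L)) := by gcongr
      _ = 170880 * (v * L ^ 2) := by ring
      _ ≤ 1000000 * (v * L ^ 2) := by
          have : 0 ≤ v * L ^ 2 := by positivity
          linarith
      _ ≤ 2 ^ l := hn2.le
  · have h5 : log ((l : ℝ) + 1) ≤ l := by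
      have := Real.log_le_sub_one_of_pos (x := (l : ℝ) + 1) (by linarith)
      linarith
    have he' := Real.exp_one_lt_d9
    calc 192 * exp 1 * v * l * log ((l : ℝ) + 1)
        ≤ 192 * exp 1 * v * l * l := by gcongr
      _ ≤ 192 * exp 1 * v * (32 * L) * (32 * L) := by gcongr
      _ = 196608 * exp 1 * (v * L ^ 2) := by ring
      _ ≤ 1000000 * (v * L ^ 2) := by
          have : 0 ≤ v * L ^ 2 := by positivity
          have h6 : 196608 * exp 1 ≤ 1000000 := by linarith
          exact mul_le_mul_of_nonneg_right h6 this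
      _ ≤ 2 ^ l := hn2.le

theorem exp_half_le : exp (1 / 2) ≤ 2 := by
  have h : exp (1 / 2) * exp (1 / 2) = exp 1 := by
    rw [← exp_add]
    norm_num
  have h2 := Real.exp_one_lt_d9
  have h3 : 0 < exp (1 / 2) := exp_pos _
  nlinarith

/-- The closed form. -/
theorem num_C {n k m r : ℕ} (hk : 3 ≤ k) (hkn : 2 * k ≤ n) (hm : k * (k - 1) ≤ 2 * m)
    (hr : 1 ≤ r)
    (hA : ((n : ℝ) * k / (36 * exp 1 * m * log (n / k))) ^ (k - 1) ≤ r)
    (hB : ∀ l : ℕ, 4 ≤ l → l * n ≤ 2 ^ l * k →
      192 * exp 1 * m * l * log ((l : ℝ) + 1) ≤ 2 ^ l * (k : ℝ) ^ 2 → 8 * 2 ^ l ≤ n →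
      exp ((n : ℝ) / (16 * 2 ^ l)) ≤ r) {c : ℝ} (hc0 : 0 < c) (hc : c ≤ 1 / 32000000) :
    (1 + (n : ℝ) * k / (m * log (2 + m / (k : ℝ) ^ 2) ^ 2)) ^ (c * k) ≤ 2 * r := by
  have hk0 : (0 : ℝ) < k := by exact_mod_cast (by omega : 0 < k)
  have hk3 : (3 : ℝ) ≤ k := by exact_mod_cast hk
  have hn0 : (0 : ℝ) < n := by exact_mod_cast (by omega : 0 < n)
  have hr1 : (1 : ℝ) ≤ r := by exact_mod_cast hr
  have hm3 : (k : ℝ) ^ 2 ≤ 3 * m := by
    have h1 : k * k ≤ 3 * m := by
      have h2 : k * (k - 1) = k * k - k := by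
        rw [Nat.mul_sub, mul_one]
      have h3 : 3 * k ≤ k * k := Nat.mul_le_mul_right _ hk
      omega
    have h4 : (k : ℝ) * k ≤ 3 * m := by exact_mod_cast h1
    rw [sq]
    exact h4
  have hm0 : (0 : ℝ) < m := by nlinarith
  set u : ℝ := n / k with hu
  set v : ℝ := m / (k : ℝ) ^ 2 with hv
  have hu2 : 2 ≤ u := by
    rw [hu, le_div_iff₀ hk0]
    exact_mod_cast hkn
  have hv3 : 1 / 3 ≤ v := by
    rw [hv, div_le_div_iff₀ (by norm_num) (by positivity)]
    linarith
  have hv0 : 0 < v := by linarith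
  have hL : 0.69 < log (2 + v) := log_two_gt.trans_le (log_le_log (by norm_num) (by linarith))
  have hlu : 0 < log u := log_pos (by linarith)
  have hw : (n : ℝ) * k / (m * log (2 + v) ^ 2) = u / v / log (2 + v) ^ 2 := by
    rw [hu, hv]
    field_simp
  rw [hw]
  set x : ℝ := (n : ℝ) * k / (36 * exp 1 * m * log u) with hx
  have hxu : u = 36 * exp 1 * x * v * log u := by
    rw [hx, hv]
    have h1 : log u ≠ 0 := hlu.ne'
    field_simp
    rw [hu]
    field_simp
  have hx0 : 0 < x := by rw [hx]; positivity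
  have hbase : 1 ≤ 1 + u / v / log (2 + v) ^ 2 := by
    have : 0 ≤ u / v / log (2 + v) ^ 2 := by positivity
    linarith
  rcases le_total (exp 1) x with h1 | h1
  · -- first range
    have h2 := case_one hu2 hv0 h1 hxu
    have hx1 : 1 ≤ x := by
      have := Real.add_one_le_exp (1 : ℝ)
      linarith
    have h3 : (1 + u / v / log (2 + v) ^ 2) ^ (c * k) ≤ (x ^ (10 : ℕ)) ^ (c * k) :=
      rpow_le_rpow (by linarith) h2 (by positivity)
    refine h3.trans ?_
    rw [← rpow_natCast, ← rpow_mul hx0.le]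
    have h4 : x ^ (((10 : ℕ) : ℝ) * (c * k)) ≤ x ^ (((k - 1 : ℕ) : ℝ)) := by
      refine rpow_le_rpow_of_exponent_le hx1 ?_
      rw [Nat.cast_sub (by omega)]
      push_cast
      nlinarith
    refine h4.trans ?_
    rw [rpow_natCast]
    linarith
  · -- second range
    have h2 : u ≤ 267 * v * log u := by
      have h3 : 36 * exp 1 * x ≤ 267 := by
        have h4 := exp_two_le
        have h5 : 36 * exp 1 * x ≤ 36 * exp 1 * exp 1 := by gcongr
        nlinarith
      calc u = 36 * exp 1 * x * (v * log u) := by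
            conv_lhs => rw [hxu]
            ring
        _ ≤ 267 * (v * log u) := by gcongr
        _ = 267 * v * log u := by ring
    obtain ⟨l, hl4, hl1, hl2, hl3⟩ := case_two hu2 hv3 h2
    have hexp : (1 + u / v / log (2 + v) ^ 2) ^ (c * k) ≤
        exp (c * (n / (v * log (2 + v) ^ 2))) := by
      have h3 : 1 + u / v / log (2 + v) ^ 2 ≤ exp (u / v / log (2 + v) ^ 2) := by
        have := Real.add_one_le_exp (u / v / log (2 + v) ^ 2)
        linarith
      calc (1 + u / v / log (2 + v) ^ 2) ^ (c * k)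
          ≤ exp (u / v / log (2 + v) ^ 2) ^ (c * k) :=
            rpow_le_rpow (by linarith) h3 (by positivity)
        _ = exp (c * (n / (v * log (2 + v) ^ 2))) := by
            rw [← exp_mul]
            congr 1
            rw [hu]
            field_simp
    refine hexp.trans ?_
    have h2l0 : (0 : ℝ) < 2 ^ l := by positivity
    have hvL : 0 < v * log (2 + v) ^ 2 := by positivity
    by_cases h8 : 8 * 2 ^ l ≤ n
    · have h3 := hB l hl4 (by
        have h4 : (l : ℝ) * n ≤ 2 ^ l * k := by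
          have h5 : (l : ℝ) * n = l * u * k := by
            rw [hu]
            field_simp
          rw [h5]
          gcongr
        exact_mod_cast h4) (by
        have h5 : 192 * exp 1 * m * l * log ((l : ℝ) + 1) =
            192 * exp 1 * v * l * log ((l : ℝ) + 1) * (k : ℝ) ^ 2 := by
          rw [hv]
          field_simp
        rw [h5]
        gcongr) h8
      have h4 : c * (n / (v * log (2 + v) ^ 2)) ≤ (n : ℝ) / (16 * 2 ^ l) := by
        calc c * (n / (v * log (2 + v) ^ 2)) ≤ 1 / 32000000 * (n / (v * log (2 + v) ^ 2)) := by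
              gcongr
          _ = n / (16 * (2000000 * (v * log (2 + v) ^ 2))) := by
              field_simp
              norm_num
          _ ≤ (n : ℝ) / (16 * 2 ^ l) := by gcongr
      have h5 := (exp_le_exp.2 h4).trans h3
      linarith
    · push Not at h8
      have h8' : (n : ℝ) < 8 * 2 ^ l := by exact_mod_cast h8
      have h4 : c * (n / (v * log (2 + v) ^ 2)) ≤ 1 / 2 := by
        have h5 : (n : ℝ) / (v * log (2 + v) ^ 2) ≤ 16000000 := by
          rw [div_le_iff₀ hvL]
          linarith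
        calc c * (n / (v * log (2 + v) ^ 2)) ≤ 1 / 32000000 * 16000000 := by
              gcongr
          _ = 1 / 2 := by norm_num
      have h6 := (exp_le_exp.2 h4).trans exp_half_le
      linarith

end Pool.Agent.Helper72.CLQ
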