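import Pool.Agent.Helper72.CLQ.NumC

/-!
# Numerical part, both conclusions
-/

set_option autoImplicit false

namespace Pool.Agent.Helper72.CLQ

open Real Finset

theorem clique_numerics : ∃ c : ℝ, 0 < c ∧ ∀ n k m r : ℕ, 3 ≤ k → 2 * k ≤ n →
    k * (k - 1) ≤ 2 * m → 1 ≤ r →
    (∀ d κ t : ℕ, 2 * (d + 1) + κ = k → 2 * (d + 1) * t + κ ≤ n → 1 ≤ d + κ →
      ∀ q : ℝ, 0 < q → q < 1 →
      (1 - (1 - q ^ (d + κ)) ^ t) ^ (2 * (d + 1)) ≤
        r * q ^ (2 * (d + 1) * (d + κ)) * (SS m (d + 1) (1 - q)) ^ 2) →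
    (∀ D l L R : ℕ, 1 ≤ D → 1 ≤ l → 1 ≤ L → 1 ≤ R → 2 * D * (1 + l * L) + R ≤ k →
      2 * D * (2 ^ l - 1 + l * L) ≤ n - k → ∀ q : ℝ, 0 < q → q < 1 →
      (2 - q ^ (L * R)) ^ (2 * D * l) ≤ r * (SS m D (1 - q)) ^ 2) →
    (c * n * k / (m * log (n / k))) ^ (k - 1) ≤ r ∧
      (1 + (n : ℝ) * k / (m * log (2 + m / (k : ℝ) ^ 2) ^ 2)) ^ (c * k) ≤ 2 * r := by
  refine ⟨1 / 32000000, by norm_num, ?_⟩
  intro n k m r hk hkn hm hr hA hB
  have h1 := num_A hk hkn hm hA hr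
  refine ⟨?_, ?_⟩
  · refine le_trans ?_ h1
    have hk0 : (0 : ℝ) < k := by exact_mod_cast (by omega : 0 < k)
    have hn0 : (0 : ℝ) < n := by exact_mod_cast (by omega : 0 < n)
    have hm0 : (0 : ℝ) < m := by
      have h9 : 3 * (k - 1) ≤ k * (k - 1) := Nat.mul_le_mul_right _ hk
      exact_mod_cast (by omega : 0 < m)
    have hl0 : 0 < log ((n : ℝ) / k) := by
      apply log_pos
      rw [lt_div_iff₀ hk0, one_mul]
      exact_mod_cast (by omega : k < n)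
    refine pow_le_pow_left₀ (by positivity) ?_ _
    have he := Real.exp_one_lt_d9
    have he0 := exp_pos (1 : ℝ)
    calc 1 / 32000000 * (n : ℝ) * k / (m * log (n / k))
        = (n : ℝ) * k / (32000000 * m * log (n / k)) := by
          field_simp
      _ ≤ (n : ℝ) * k / (36 * exp 1 * m * log (n / k)) := by
          have h2 : 36 * exp 1 ≤ 32000000 := by linarith
          gcongr
  · exact num_C hk hkn hm hr h1 (fun l hl h2 h3 h4 => num_B hk hkn hm hB hr hl h2 h3 h4)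
      (by norm_num) le_rfl

end Pool.Agent.Helper72.CLQ
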